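import Mathlib

/-!
# A finite linear programming duality lemma (from Sion's minimax theorem)
-/

namespace Pool.Agent.Helper4.BF

open Finset

section LP

variable {ι κ : Type*} [Fintype ι] [Fintype κ]

/-- The bilinear payoff. -/
noncomputable def pay (A : ι → κ → ℝ) (q : ι → ℝ) (p : κ → ℝ) : ℝ :=
  ∑ i, ∑ j, q i * A i j * p j

lemma pay_continuous_left (A : ι → κ → ℝ) (p : κ → ℝ) : Continuous (fun q => pay A q p) := by
  unfold pay
  fun_prop

lemma pay_continuous_right (A : ι → κ → ℝ) (q : ι → ℝ) : Continuous (fun p => pay A q p) := by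
  unfold pay
  fun_prop

lemma pay_left_combo (A : ι → κ → ℝ) (p : κ → ℝ) (x y : ι → ℝ) (a b : ℝ) :
    pay A (a • x + b • y) p = a * pay A x p + b * pay A y p := by
  unfold pay
  simp only [Pi.add_apply, Pi.smul_apply, smul_eq_mul, Finset.mul_sum]
  rw [← Finset.sum_add_distrib]
  refine Finset.sum_congr rfl fun i _ => ?_
  rw [← Finset.sum_add_distrib]
  refine Finset.sum_congr rfl fun j _ => ?_
  ring

lemma pay_right_combo (A : ι → κ → ℝ) (q : ι → ℝ) (x y : κ → ℝ) (a b : ℝ) :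
    pay A q (a • x + b • y) = a * pay A q x + b * pay A q y := by
  unfold pay
  simp only [Pi.add_apply, Pi.smul_apply, smul_eq_mul, Finset.mul_sum]
  rw [← Finset.sum_add_distrib]
  refine Finset.sum_congr rfl fun i _ => ?_
  rw [← Finset.sum_add_distrib]
  refine Finset.sum_congr rfl fun j _ => ?_
  ring

lemma exists_saddle [Nonempty ι] [Nonempty κ] (A : ι → κ → ℝ) :
    ∃ a ∈ stdSimplex ℝ ι, ∃ b ∈ stdSimplex ℝ κ,
      IsSaddlePointOn (stdSimplex ℝ ι) (stdSimplex ℝ κ) (pay A) a b := by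
  classical
  refine Sion.exists_isSaddlePointOn ?_ (convex_stdSimplex ℝ ι) (isCompact_stdSimplex ℝ ι)
    ?_ ?_ (convex_stdSimplex ℝ κ) ?_ (isCompact_stdSimplex ℝ κ) ?_ ?_
  · obtain ⟨i⟩ := (inferInstance : Nonempty ι)
    exact ⟨_, single_mem_stdSimplex ℝ i⟩
  · intro p _
    exact (pay_continuous_left A p).lowerSemicontinuous.lowerSemicontinuousOn _
  · intro p _
    refine ConvexOn.quasiconvexOn ⟨convex_stdSimplex ℝ ι, ?_⟩
    intro x _ y _ a b _ _ _
    simp only [smul_eq_mul]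
    exact (pay_left_combo A p x y a b).le
  · obtain ⟨j⟩ := (inferInstance : Nonempty κ)
    exact ⟨_, single_mem_stdSimplex ℝ j⟩
  · intro q _
    exact (pay_continuous_right A q).upperSemicontinuous.upperSemicontinuousOn _
  · intro q _
    refine ConcaveOn.quasiconcaveOn ⟨convex_stdSimplex ℝ κ, ?_⟩
    intro x _ y _ a b _ _ _
    simp only [smul_eq_mul]
    exact (pay_right_combo A q x y a b).ge

lemma pay_single_left [DecidableEq ι] (A : ι → κ → ℝ) (p : κ → ℝ) (i : ι) :
    pay A (Pi.single i 1) p = ∑ j, A i j * p j := by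
  unfold pay
  rw [Finset.sum_eq_single i]
  · simp
  · intro b _ hb
    simp [Pi.single_eq_of_ne hb]
  · simp

lemma pay_single_right [DecidableEq κ] (A : ι → κ → ℝ) (q : ι → ℝ) (j : κ) :
    pay A q (Pi.single j 1) = ∑ i, q i * A i j := by
  unfold pay
  refine Finset.sum_congr rfl fun i _ => ?_
  rw [Finset.sum_eq_single j]
  · simp
  · intro b _ hb
    simp [Pi.single_eq_of_ne hb]
  · simp

/-- Finite LP duality for covering/packing with a nonnegative matrix having no zero row. -/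
theorem lp_pair [Nonempty ι] [Nonempty κ] (A : ι → κ → ℝ) (hA0 : ∀ i j, 0 ≤ A i j)
    (hA : ∀ i, ∃ j, 0 < A i j) :
    ∃ (k : ℝ) (w : ι → ℝ) (y : κ → ℝ), 0 < k ∧ (∀ i, 0 ≤ w i) ∧ (∀ j, 0 ≤ y j) ∧
      ∑ i, w i = k ∧ ∑ j, y j = k ∧ (∀ j, ∑ i, w i * A i j ≤ 1) ∧
      (∀ i, 1 ≤ ∑ j, A i j * y j) := by
  classical
  obtain ⟨a, ha, b, hb, hab⟩ := exists_saddle A
  set v : ℝ := pay A a b with hv
  have h1 : ∀ j, ∑ i, a i * A i j ≤ v := by
    intro j
    rw [← pay_single_right]
    exact hab a ha _ (single_mem_stdSimplex ℝ j)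
  have h2 : ∀ i, v ≤ ∑ j, A i j * b j := by
    intro i
    rw [← pay_single_left]
    exact hab _ (single_mem_stdSimplex ℝ i) b hb
  have hvpos : 0 < v := by
    -- some coordinate of `a` is positive
    obtain ⟨i, hi⟩ : ∃ i, 0 < a i := by
      by_contra hcon
      push Not at hcon
      have h0 : ∑ i, a i ≤ 0 := Finset.sum_nonpos fun i _ => hcon i
      rw [ha.2] at h0
      linarith
    obtain ⟨j, hj⟩ := hA i
    have : 0 < ∑ i, a i * A i j := by
      refine Finset.sum_pos' (fun i _ => mul_nonneg (ha.1 i) (hA0 i j)) ⟨i, Finset.mem_univ _, ?_⟩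
      exact mul_pos hi hj
    exact lt_of_lt_of_le this (h1 j)
  refine ⟨1 / v, fun i => a i / v, fun j => b j / v, by positivity, ?_, ?_, ?_, ?_, ?_, ?_⟩
  · intro i; exact div_nonneg (ha.1 i) hvpos.le
  · intro j; exact div_nonneg (hb.1 j) hvpos.le
  · rw [← Finset.sum_div, ha.2]
  · rw [← Finset.sum_div, hb.2]
  · intro j
    have : ∑ i, a i / v * A i j = (∑ i, a i * A i j) / v := by
      rw [Finset.sum_div]
      refine Finset.sum_congr rfl fun i _ => ?_
      ring
    rw [this, div_le_one hvpos]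
    exact h1 j
  · intro i
    have : ∑ j, A i j * (b j / v) = (∑ j, A i j * b j) / v := by
      rw [Finset.sum_div]
      refine Finset.sum_congr rfl fun i _ => ?_
      ring
    rw [this, le_div_iff₀ hvpos, one_mul]
    exact h2 i

/-- Complementary slackness for the pair of `lp_pair`. -/
theorem slackness (A : ι → κ → ℝ) {k : ℝ} {w : ι → ℝ} {y : κ → ℝ} (hw : ∀ i, 0 ≤ w i)
    (hy : ∀ j, 0 ≤ y j) (hwk : ∑ i, w i = k) (hyk : ∑ j, y j = k)
    (h1 : ∀ j, ∑ i, w i * A i j ≤ 1) (h2 : ∀ i, 1 ≤ ∑ j, A i j * y j) :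
    (∀ i, w i ≠ 0 → ∑ j, A i j * y j = 1) ∧ (∀ j, y j ≠ 0 → ∑ i, w i * A i j = 1) := by
  have e1 : ∑ i, w i * (∑ j, A i j * y j) = ∑ j, y j * (∑ i, w i * A i j) := by
    simp only [Finset.mul_sum]
    rw [Finset.sum_comm]
    refine Finset.sum_congr rfl fun j _ => Finset.sum_congr rfl fun i _ => ?_
    ring
  have a1 : ∀ i ∈ (Finset.univ : Finset ι), 0 ≤ w i * (∑ j, A i j * y j - 1) :=
    fun i _ => mul_nonneg (hw i) (by linarith [h2 i])
  have a2 : ∀ j ∈ (Finset.univ : Finset κ), 0 ≤ y j * (1 - ∑ i, w i * A i j) :=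
    fun j _ => mul_nonneg (hy j) (by linarith [h1 j])
  have s1 : ∑ i, w i * (∑ j, A i j * y j - 1) = ∑ i, w i * (∑ j, A i j * y j) - k := by
    simp only [mul_sub, mul_one, Finset.sum_sub_distrib, hwk]
  have s2 : ∑ j, y j * (1 - ∑ i, w i * A i j) = k - ∑ j, y j * (∑ i, w i * A i j) := by
    simp only [mul_sub, mul_one, Finset.sum_sub_distrib, hyk]
  have t1 : ∑ i, w i * (∑ j, A i j * y j - 1) = 0 := by
    have := Finset.sum_nonneg a1
    have := Finset.sum_nonneg a2
    linarith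
  have t2 : ∑ j, y j * (1 - ∑ i, w i * A i j) = 0 := by
    have := Finset.sum_nonneg a1
    have := Finset.sum_nonneg a2
    linarith
  constructor
  · intro i hi
    have := (Finset.sum_eq_zero_iff_of_nonneg a1).1 t1 i (Finset.mem_univ _)
    rcases mul_eq_zero.1 this with h | h
    · exact absurd h hi
    · linarith
  · intro j hj
    have := (Finset.sum_eq_zero_iff_of_nonneg a2).1 t2 j (Finset.mem_univ _)
    rcases mul_eq_zero.1 this with h | h
    · exact absurd h hj
    · linarith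

end LP

/-! ### Layer-cake comparison of two finite sums -/

lemma antitone_step (x : ℝ) : Antitone (fun θ : ℝ => if θ ≤ x then (1:ℝ) else 0) := by
  intro s t hst
  dsimp only
  split_ifs with h1 h2
  · exact le_rfl
  · exact absurd (hst.trans h1) h2
  · norm_num
  · exact le_rfl

lemma int_step (x W : ℝ) (hx : 0 ≤ x) (hW : 0 ≤ W) :
    ∫ θ in (0:ℝ)..W, (if θ ≤ x then (1:ℝ) else 0) = min W x := by
  rw [intervalIntegral.integral_of_le hW]
  have h : (fun θ : ℝ => if θ ≤ x then (1:ℝ) else 0) = (Set.Iic x).indicator (fun _ => (1:ℝ)) := by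
    funext θ
    simp [Set.indicator_apply]
  rw [h, MeasureTheory.setIntegral_indicator measurableSet_Iic]
  have h2 : Set.Ioc 0 W ∩ Set.Iic x = Set.Ioc 0 (min W x) := by
    ext θ
    simp only [Set.mem_inter_iff, Set.mem_Ioc, Set.mem_Iic, le_min_iff]
    tauto
  rw [h2, MeasureTheory.setIntegral_const, MeasureTheory.measureReal_def, Real.volume_Ioc,
    sub_zero, ENNReal.toReal_ofReal (le_min hW hx)]
  simp

theorem sum_le_of_layers {α β : Type*} (S : Finset α) (T : Finset β) (a : α → ℝ) (b : β → ℝ)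
    (W c γ : ℝ) (hγ : 0 ≤ γ) (hW : 0 ≤ W) (ha0 : ∀ i ∈ S, 0 ≤ a i) (haW : ∀ i ∈ S, a i ≤ W)
    (hb0 : ∀ j ∈ T, 0 ≤ b j)
    (h : ∀ θ : ℝ, 0 < θ → ((S.filter (fun i => θ ≤ a i)).card : ℝ) ≤
      c + γ * ((T.filter (fun j => θ ≤ b j)).card : ℝ)) :
    ∑ i ∈ S, a i ≤ c * W + γ * ∑ j ∈ T, b j := by
  have hint : ∀ x : ℝ, IntervalIntegrable (fun θ : ℝ => if θ ≤ x then (1:ℝ) else 0)
      MeasureTheory.volume 0 W := fun x => (antitone_step x).intervalIntegrable
  have hS : IntervalIntegrable (fun θ : ℝ => ∑ i ∈ S, if θ ≤ a i then (1:ℝ) else 0)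
      MeasureTheory.volume 0 W :=
    Antitone.intervalIntegrable fun s t hst => Finset.sum_le_sum fun i _ => antitone_step (a i) hst
  have hT : IntervalIntegrable (fun θ : ℝ => ∑ j ∈ T, if θ ≤ b j then (1:ℝ) else 0)
      MeasureTheory.volume 0 W :=
    Antitone.intervalIntegrable fun s t hst => Finset.sum_le_sum fun i _ => antitone_step (b i) hst
  have hT' := hT.const_mul γ
  have hc : IntervalIntegrable (fun _ : ℝ => c) MeasureTheory.volume 0 W := by simp
  have e1 : ∑ i ∈ S, a i = ∫ θ in (0:ℝ)..W, ∑ i ∈ S, (if θ ≤ a i then (1:ℝ) else 0) := by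
    rw [intervalIntegral.integral_finsetSum fun i _ => hint (a i)]
    refine Finset.sum_congr rfl fun i hi => ?_
    rw [int_step _ _ (ha0 i hi) hW, min_eq_right (haW i hi)]
  have e2 : ∫ θ in (0:ℝ)..W, (c + γ * ∑ j ∈ T, (if θ ≤ b j then (1:ℝ) else 0)) ≤
      c * W + γ * ∑ j ∈ T, b j := by
    rw [intervalIntegral.integral_add hc hT', intervalIntegral.integral_const_mul,
      intervalIntegral.integral_finsetSum fun j _ => hint (b j)]
    have : ∑ j ∈ T, ∫ θ in (0:ℝ)..W, (if θ ≤ b j then (1:ℝ) else 0) ≤ ∑ j ∈ T, b j := by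
      refine Finset.sum_le_sum fun j hj => ?_
      rw [int_step _ _ (hb0 j hj) hW]
      exact min_le_right _ _
    have h3 := mul_le_mul_of_nonneg_left this hγ
    simp only [intervalIntegral.integral_const, sub_zero, smul_eq_mul]
    linarith
  refine le_trans ?_ e2
  rw [e1]
  refine intervalIntegral.integral_mono_on_of_le_Ioo hW hS (hc.add hT') ?_
  intro θ hθ
  have := h θ hθ.1
  simpa [Finset.sum_boole] using this

end Pool.Agent.Helper4.BF
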