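import Mathlib

/-!
# Counting lemmas for linear hypergraphs
-/

namespace Pool.Agent.Helper4.BF

open Finset

variable {V : Type*} [DecidableEq V]

/-- Any two distinct edges share at most one vertex. -/
def IsLinear (H : Finset (Finset V)) : Prop :=
  ∀ e ∈ H, ∀ f ∈ H, e ≠ f → (e ∩ f).card ≤ 1

/-- The edges of `M` are pairwise disjoint. -/
def IsMatching (M : Finset (Finset V)) : Prop :=
  ∀ e ∈ M, ∀ f ∈ M, e ≠ f → Disjoint e f

/-- `N[v]`, the union of the edges containing `v`. -/
def nbhd (H : Finset (Finset V)) (v : V) : Finset V :=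
  (H.filter (fun e => v ∈ e)).biUnion id

/-- The edges meeting `f`, other than `f`. -/
def meets (H : Finset (Finset V)) (f : Finset V) : Finset (Finset V) :=
  H.filter (fun e => e ≠ f ∧ ¬ Disjoint e f)

lemma mem_meets {H : Finset (Finset V)} {e f : Finset V} :
    e ∈ meets H f ↔ e ∈ H ∧ e ≠ f ∧ ¬ Disjoint e f := by
  simp [meets]

lemma IsLinear.mono {H H' : Finset (Finset V)} (h : IsLinear H) (hs : H' ⊆ H) : IsLinear H' :=
  fun e he f hf => h e (hs he) f (hs hf)

lemma nbhd_mono {H H' : Finset (Finset V)} (hs : H' ⊆ H) (v : V) : nbhd H' v ⊆ nbhd H v := by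
  intro x hx
  simp only [nbhd, mem_biUnion, mem_filter, id] at hx ⊢
  obtain ⟨e, ⟨he, hv⟩, hx⟩ := hx
  exact ⟨e, ⟨hs he, hv⟩, hx⟩

lemma IsLinear.eq_of_mem {H : Finset (Finset V)} (h : IsLinear H) {e f : Finset V} (he : e ∈ H)
    (hf : f ∈ H) (hne : e ≠ f) {u v : V} (hue : u ∈ e) (huf : u ∈ f) (hve : v ∈ e) (hvf : v ∈ f) :
    u = v := by
  have := h e he f hf hne
  rw [Finset.card_le_one] at this
  exact this u (mem_inter.2 ⟨hue, huf⟩) v (mem_inter.2 ⟨hve, hvf⟩)

/-- For a linear hypergraph, `|N[v]| = 1 + ∑_{e ∋ v} (|e| - 1)`. -/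
lemma card_nbhd {H : Finset (Finset V)} (h : IsLinear H) {v : V} (hv : ∃ e ∈ H, v ∈ e) :
    (nbhd H v).card = 1 + ∑ e ∈ H.filter (fun e => v ∈ e), (e.card - 1) := by
  have h1 : nbhd H v = insert v ((H.filter (fun e => v ∈ e)).biUnion (fun e => e.erase v)) := by
    ext x
    simp only [nbhd, mem_biUnion, mem_filter, id, mem_insert, mem_erase]
    constructor
    · rintro ⟨e, ⟨he, hve⟩, hx⟩
      by_cases hxv : x = v
      · exact Or.inl hxv
      · exact Or.inr ⟨e, ⟨he, hve⟩, hxv, hx⟩
    · rintro (rfl | ⟨e, ⟨he, hve⟩, _, hx⟩)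
      · obtain ⟨e, he, hve⟩ := hv
        exact ⟨e, ⟨he, hve⟩, hve⟩
      · exact ⟨e, ⟨he, hve⟩, hx⟩
  rw [h1, card_insert_of_notMem, card_biUnion, add_comm]
  · congr 1
    refine Finset.sum_congr rfl fun e he => ?_
    rw [card_erase_of_mem (mem_filter.1 he).2]
  · intro e he f hf hne
    rw [Function.onFun, Finset.disjoint_left]
    intro x hxe hxf
    have he' := mem_filter.1 he
    have hf' := mem_filter.1 hf
    have := h.eq_of_mem he'.1 hf'.1 hne (mem_of_mem_erase hxe) (mem_of_mem_erase hxf) he'.2 hf'.2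
    exact (mem_erase.1 hxe).1 this
  · simp

/-- Decomposition of the edges meeting `f` according to the vertex of `f` they contain. -/
lemma sum_meets {H : Finset (Finset V)} (h : IsLinear H) {f : Finset V} (hf : f ∈ H)
    {R : Type*} [AddCommMonoid R] (g : Finset V → R) (P : Finset V → Prop) [DecidablePred P] :
    ∑ u ∈ f, ∑ e ∈ (meets H f).filter (fun e => P e ∧ u ∈ e), g e =
      ∑ e ∈ (meets H f).filter P, g e := by
  have : ∀ u ∈ f, ∑ e ∈ (meets H f).filter (fun e => P e ∧ u ∈ e), g e =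
      ∑ e ∈ (meets H f).filter P, if u ∈ e then g e else 0 := by
    intro u _
    rw [← Finset.sum_filter, Finset.filter_filter]
  rw [Finset.sum_congr rfl this, Finset.sum_comm]
  refine Finset.sum_congr rfl fun e he => ?_
  have he' := mem_meets.1 (mem_filter.1 he).1
  obtain ⟨u, hue, huf⟩ := Finset.not_disjoint_iff.1 he'.2.2
  rw [Finset.sum_eq_single u]
  · simp [hue]
  · intro b hb hbu
    rw [if_neg]
    intro hbe
    exact hbu (h.eq_of_mem he'.1 hf he'.2.1 hbe hb hue huf)
  · intro hu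
    exact absurd huf hu

/-- The edges at `u`, other than `f`. -/
def atv (H : Finset (Finset V)) (f : Finset V) (u : V) : Finset (Finset V) :=
  (meets H f).filter (fun e => u ∈ e)

lemma mem_atv {H : Finset (Finset V)} {e f : Finset V} {u : V} :
    e ∈ atv H f u ↔ (e ∈ H ∧ e ≠ f ∧ ¬ Disjoint e f) ∧ u ∈ e := by
  simp [atv, mem_meets]

lemma filter_mem_eq_insert {H : Finset (Finset V)} {f : Finset V} (hf : f ∈ H) {u : V}
    (hu : u ∈ f) : H.filter (fun e => u ∈ e) = insert f (atv H f u) := by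
  ext e
  simp only [mem_filter, mem_insert, mem_atv]
  constructor
  · rintro ⟨he, hue⟩
    by_cases hef : e = f
    · exact Or.inl hef
    · exact Or.inr ⟨⟨he, hef, Finset.not_disjoint_iff.2 ⟨u, hue, hu⟩⟩, hue⟩
  · rintro (rfl | ⟨⟨he, _, _⟩, hue⟩)
    · exact ⟨hf, hu⟩
    · exact ⟨he, hue⟩

lemma notMem_atv {H : Finset (Finset V)} {f : Finset V} {u : V} : f ∉ atv H f u := by
  intro h
  exact (mem_atv.1 h).1.2.1 rfl

lemma sum_atv {H : Finset (Finset V)} (h : IsLinear H) {f : Finset V} (hf : f ∈ H)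
    {R : Type*} [AddCommMonoid R] (g : Finset V → R) :
    ∑ u ∈ f, ∑ e ∈ atv H f u, g e = ∑ e ∈ meets H f, g e := by
  have := sum_meets h hf g (fun _ => True)
  simpa [atv] using this

/-- `|N[u]| = |f| + ∑_{e at u, e ≠ f} (|e| - 1)`. -/
lemma card_nbhd' {H : Finset (Finset V)} (h : IsLinear H) {f : Finset V} (hf : f ∈ H) {u : V}
    (hu : u ∈ f) : (nbhd H u).card = f.card + ∑ e ∈ atv H f u, (e.card - 1) := by
  rw [card_nbhd h ⟨f, hf, hu⟩, filter_mem_eq_insert hf hu, sum_insert notMem_atv]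
  have : 0 < f.card := Finset.card_pos.2 ⟨u, hu⟩
  omega

lemma card_filter_mem {H : Finset (Finset V)} {f : Finset V} (hf : f ∈ H) {u : V}
    (hu : u ∈ f) : (H.filter (fun e => u ∈ e)).card = 1 + (atv H f u).card := by
  rw [filter_mem_eq_insert hf hu, card_insert_of_notMem notMem_atv, add_comm]

section CI

variable {H : Finset (Finset V)} {f : Finset V} {A U : Finset (Finset V)}

/-- The set of long edges at `u` with respect to the pencil of `A` at `x`. -/
def longs (H : Finset (Finset V)) (f : Finset V) (A : Finset (Finset V)) (x u : V) :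
    Finset (Finset V) :=
  (atv H f u).filter (fun e => ∀ g ∈ A, x ∈ g → ¬ Disjoint e g)

lemma card_longs_le (h : IsLinear H) (hf : f ∈ H) (hA : A ⊆ meets H f) {x u : V} (hx : x ∈ f)
    (hu : u ∈ f) (hux : u ≠ x) {g : Finset V} (hg : g ∈ A) (hxg : x ∈ g) :
    (longs H f A x u).card ≤ g.card - 1 := by
  have hg' := mem_meets.1 (hA hg)
  rw [← card_erase_of_mem hxg]
  -- choose the common point
  have hch : ∀ e ∈ longs H f A x u, ∃ p, p ∈ e ∧ p ∈ g := by
    intro e he
    exact Finset.not_disjoint_iff.1 ((mem_filter.1 he).2 g hg hxg)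
  have hch' : ∀ e : Finset V, ∃ p, e ∈ longs H f A x u → p ∈ e ∧ p ∈ g := by
    intro e
    by_cases he : e ∈ longs H f A x u
    · obtain ⟨p, hp⟩ := hch e he
      exact ⟨p, fun _ => hp⟩
    · exact ⟨x, fun h => absurd h he⟩
  choose p hp using hch'
  have hxe : ∀ e ∈ longs H f A x u, x ∉ e := by
    intro e he hxe
    have he' := mem_atv.1 (mem_filter.1 he).1
    exact hux (h.eq_of_mem he'.1.1 hf he'.1.2.1 he'.2 hu hxe hx)
  have hug : u ∉ g := by
    intro hug
    exact hux (h.eq_of_mem hg'.1 hf hg'.2.1 hug hu hxg hx)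
  refine Finset.card_le_card_of_injOn p ?_ ?_
  · intro e he
    have he1 := hp e he
    simp only [coe_erase, Set.mem_sdiff, mem_coe, Set.mem_singleton_iff]
    refine ⟨he1.2, ?_⟩
    intro hpx
    exact hxe e he (hpx ▸ he1.1)
  · intro e he e' he' hee
    by_contra hne
    have h1 := mem_atv.1 (mem_filter.1 he).1
    have h2 := mem_atv.1 (mem_filter.1 he').1
    have h3 := hp e he
    have h4 := hp e' he'
    have := h.eq_of_mem h1.1.1 h2.1.1 hne h1.2 h2.2 h3.1 (by rw [hee]; exact h4.1)
    exact hug (this ▸ h3.2)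


lemma card_eq_sum_filter (h : IsLinear H) (hf : f ∈ H) (hA : A ⊆ meets H f) :
    A.card = ∑ u ∈ f, (A.filter (fun e => u ∈ e)).card := by
  have h1 := sum_meets h hf (fun _ => 1) (fun e => e ∈ A)
  have h2 : (meets H f).filter (fun e => e ∈ A) = A := by
    ext e
    simp only [mem_filter]
    exact ⟨fun h => h.2, fun h => ⟨hA h, h⟩⟩
  have h3 : ∀ u, (meets H f).filter (fun e => e ∈ A ∧ u ∈ e) = A.filter (fun e => u ∈ e) := by
    intro u
    rw [← Finset.filter_filter, h2]
  rw [h2] at h1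
  simp only [h3] at h1
  simpa using h1.symm

lemma arith_ci (s n l δ D Uc Ac : ℤ) (hs : 1 ≤ s) (hn : s ≤ n) (hδ : n ≤ δ) (hl : 0 ≤ l)
    (h1 : Ac ≤ n + (s - 1) * min l n) (h2 : D ≤ δ + (s - 1) * l + Uc)
    (h3 : s + n * max 2 l + 2 * (δ - n) ≤ D) : Ac ≤ s * (s - 1) + Uc := by
  rcases le_total n l with hnl | hnl
  · rw [min_eq_right hnl] at h1
    have h4 : l ≤ max 2 l := le_max_right _ _
    have h5 : n * l ≤ n * max 2 l := mul_le_mul_of_nonneg_left h4 (by linarith)
    nlinarith [sq_nonneg (n - s), mul_nonneg (sub_nonneg.2 hnl) (by linarith : (0:ℤ) ≤ n - s + 1)]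
  · rw [min_eq_left hnl] at h1
    rcases le_or_gt l 1 with hl1 | hl1
    · have h4 : max 2 l = 2 := max_eq_left (by linarith)
      rw [h4] at h3
      nlinarith [sq_nonneg (s - 1), mul_nonneg (by linarith : (0:ℤ) ≤ s - 1) (by linarith : (0:ℤ) ≤ 1 - l)]
    · have h4 : max 2 l = l := max_eq_right (by linarith)
      rw [h4] at h3
      rcases le_total (2 * s - 2) n with hns | hns
      · nlinarith [sq_nonneg (s - 2), mul_nonneg (by linarith : (0:ℤ) ≤ l - 2) (by linarith : (0:ℤ) ≤ n - (2 * s - 2))]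
      · nlinarith [sq_nonneg (n - s), mul_nonneg (by linarith : (0:ℤ) ≤ n - l) (by linarith : (0:ℤ) ≤ 2 * s - 2 - n)]

/-- The local counting inequality. -/
theorem ci_main (h : IsLinear H) (hf : f ∈ H) (hA : A ⊆ meets H f) (hU : U ⊆ meets H f)
    (hcross : ∀ e ∈ A, ∀ g ∈ A, ∀ u ∈ f, ∀ x ∈ f, u ∈ e → x ∈ g → u ≠ x → ¬ Disjoint e g)
    (hunb : ∀ e ∈ meets H f, ∀ g ∈ A, ∀ u ∈ f, ∀ x ∈ f, u ∈ e → x ∈ g → u ≠ x →
      Disjoint e g → e ∈ U)
    (hsz : ∀ e ∈ H, 3 ≤ e.card) (D : ℕ) (hD : ∀ v, (nbhd H v).card ≤ D)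
    (hL : D ≤ (meets H f).card) :
    A.card ≤ f.card * (f.card - 1) + U.card := by
  by_cases hall : ∀ u ∈ f, (A.filter (fun e => u ∈ e)).card ≤ f.card - 1
  · rw [card_eq_sum_filter h hf hA]
    refine le_trans (Finset.sum_le_sum hall) ?_
    simp
  push Not at hall
  obtain ⟨x0, hx0, hx0c⟩ := hall
  obtain ⟨x, hx, hmax⟩ := Finset.exists_max_image f (fun u => (A.filter (fun e => u ∈ e)).card)
    ⟨x0, hx0⟩
  have hfc : 3 ≤ f.card := hsz f hf
  have hn : f.card ≤ (A.filter (fun e => x ∈ e)).card := by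
    have := hmax x0 hx0
    omega
  set n := (A.filter (fun e => x ∈ e)).card with hndef
  have k1 : ∀ u ∈ f, u ≠ x → (A.filter (fun e => u ∈ e)).card ≤ (longs H f A x u).card := by
    intro u hu hux
    refine Finset.card_le_card ?_
    intro e he
    rw [mem_filter] at he
    rw [longs, mem_filter, atv, mem_filter]
    exact ⟨⟨hA he.1, he.2⟩, fun g hg hxg => hcross e he.1 g hg u hu x hx he.2 hxg hux⟩
  have k2 : ∀ u ∈ f, u ≠ x → (atv H f u).card ≤ (longs H f A x u).card +
      (U.filter (fun e => u ∈ e)).card := by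
    intro u hu hux
    have : (atv H f u) ⊆ longs H f A x u ∪ U.filter (fun e => u ∈ e) := by
      intro e he
      rw [mem_union]
      by_cases hlong : ∀ g ∈ A, x ∈ g → ¬ Disjoint e g
      · left
        rw [longs, mem_filter]
        exact ⟨he, hlong⟩
      · right
        push Not at hlong
        obtain ⟨g, hg, hxg, hdis⟩ := hlong
        rw [atv, mem_filter] at he
        rw [mem_filter]
        exact ⟨hunb e he.1 g hg u hu x hx he.2 hxg hux hdis, he.2⟩
    exact le_trans (Finset.card_le_card this) (Finset.card_union_le _ _)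
  set l := (f.erase x).sup (fun u => (longs H f A x u).card)
  have hlu : ∀ u ∈ f.erase x, (longs H f A x u).card ≤ l := fun u hu =>
    Finset.le_sup (f := fun u => (longs H f A x u).card) hu
  have k3 : ∀ g ∈ A, x ∈ g → max 2 l ≤ g.card - 1 := by
    intro g hg hxg
    have h3 := hsz g (mem_meets.1 (hA hg)).1
    refine max_le (by omega) ?_
    refine Finset.sup_le fun u hu => ?_
    rw [mem_erase] at hu
    exact card_longs_le h hf hA hx hu.2 hu.1 hg hxg
  have k4 : f.card + (n * max 2 l + 2 * ((atv H f x).card - n)) ≤ D := by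
    have hN := hD x
    rw [card_nbhd' h hf hx] at hN
    refine le_trans (Nat.add_le_add_left ?_ _) hN
    have hsub : A.filter (fun e => x ∈ e) ⊆ atv H f x := by
      intro e he
      rw [mem_filter] at he
      rw [atv, mem_filter]
      exact ⟨hA he.1, he.2⟩
    rw [← Finset.sum_sdiff hsub, add_comm]
    refine Nat.add_le_add ?_ ?_
    · rw [← card_sdiff_of_subset hsub, mul_comm, ← smul_eq_mul, ← Finset.sum_const]
      refine Finset.sum_le_sum fun e he => ?_
      have := hsz e (mem_atv.1 (mem_sdiff.1 he).1).1.1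
      omega
    · rw [hndef, ← smul_eq_mul, ← Finset.sum_const]
      refine Finset.sum_le_sum fun e he => ?_
      rw [mem_filter] at he
      exact k3 e he.1 he.2
  have hnδ : n ≤ (atv H f x).card := by
    refine Finset.card_le_card ?_
    intro e he
    rw [mem_filter] at he
    rw [atv, mem_filter]
    exact ⟨hA he.1, he.2⟩
  have hec : (f.erase x).card = f.card - 1 := card_erase_of_mem hx
  have k5 : A.card ≤ n + (f.card - 1) * min l n := by
    rw [card_eq_sum_filter h hf hA, ← Finset.add_sum_erase _ _ hx]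
    refine Nat.add_le_add_left ?_ _
    rw [← hec, ← smul_eq_mul, ← Finset.sum_const]
    refine Finset.sum_le_sum fun u hu => ?_
    have hu' := mem_erase.1 hu
    exact le_min (le_trans (k1 u hu'.2 hu'.1) (hlu u hu)) (hmax u hu'.2)
  have k6 : (meets H f).card ≤ (atv H f x).card + (f.card - 1) * l + U.card := by
    rw [card_eq_sum_filter h hf (Finset.Subset.refl (meets H f)), card_eq_sum_filter h hf hU,
      ← Finset.add_sum_erase _ _ hx, ← Finset.add_sum_erase f (fun u => (U.filter _).card) hx]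
    have : ∑ u ∈ f.erase x, ((meets H f).filter (fun e => u ∈ e)).card ≤
        (f.card - 1) * l + ∑ u ∈ f.erase x, (U.filter (fun e => u ∈ e)).card := by
      rw [← hec, ← smul_eq_mul, ← Finset.sum_const, ← Finset.sum_add_distrib]
      refine Finset.sum_le_sum fun u hu => ?_
      have hu' := mem_erase.1 hu
      have := k2 u hu'.2 hu'.1
      have := hlu u hu
      unfold atv at *
      omega
    have e0 : ((meets H f).filter (fun e => x ∈ e)).card = (atv H f x).card := rfl
    omega
  have hfin := arith_ci f.card n l (atv H f x).card D U.card A.card (by exact_mod_cast (by omega : 1 ≤ f.card))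
    (by exact_mod_cast hn) (by exact_mod_cast hnδ) (by positivity)
    (by
      have : ((f.card - 1 : ℕ) : ℤ) = (f.card : ℤ) - 1 := by
        rw [Nat.cast_sub (by omega)]; simp
      rw [← this]
      exact_mod_cast k5)
    (by
      have : ((f.card - 1 : ℕ) : ℤ) = (f.card : ℤ) - 1 := by
        rw [Nat.cast_sub (by omega)]; simp
      rw [← this]
      exact_mod_cast le_trans hL k6)
    (by
      have : (((atv H f x).card - n : ℕ) : ℤ) = ((atv H f x).card : ℤ) - n := by
        rw [Nat.cast_sub hnδ]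
      rw [← this]
      have k4' : ((f.card + (n * max 2 l + 2 * ((atv H f x).card - n)) : ℕ) : ℤ) ≤ D := by
        exact_mod_cast k4
      push_cast at k4' ⊢
      linarith)
  have h1 : ((f.card - 1 : ℕ) : ℤ) = (f.card : ℤ) - 1 := by
    rw [Nat.cast_sub (by omega)]; simp
  rw [← h1] at hfin
  exact_mod_cast hfin


/-- The local counting inequality for `3`-uniform hypergraphs. -/
theorem ci_three (h : IsLinear H) (hf : f ∈ H) (hA : A ⊆ meets H f) (hU : U ⊆ meets H f)
    (hcross : ∀ e ∈ A, ∀ g ∈ A, ∀ u ∈ f, ∀ x ∈ f, u ∈ e → x ∈ g → u ≠ x → ¬ Disjoint e g)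
    (hunb : ∀ e ∈ meets H f, ∀ g ∈ A, ∀ u ∈ f, ∀ x ∈ f, u ∈ e → x ∈ g → u ≠ x →
      Disjoint e g → e ∈ U)
    (hsz : ∀ e ∈ H, e.card = 3) (D : ℕ) (hD : ∀ v, (nbhd H v).card ≤ D) :
    2 * A.card + 4 * (meets H f).card + 6 ≤ 6 * D + U.card := by
  have hfc : f.card = 3 := hsz f hf
  have hN : ∀ u ∈ f, 3 + 2 * (atv H f u).card ≤ D := by
    intro u hu
    have := hD u
    rw [card_nbhd' h hf hu, hfc] at this
    have h2 : ∑ e ∈ atv H f u, (e.card - 1) = 2 * (atv H f u).card := by
      rw [Finset.sum_congr rfl (fun e he => by rw [hsz e (mem_atv.1 he).1.1])]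
      simp [mul_comm]
    omega
  have hL : (meets H f).card = ∑ u ∈ f, (atv H f u).card :=
    card_eq_sum_filter h hf (Finset.Subset.refl (meets H f))
  by_cases hall : ∀ u ∈ f, (A.filter (fun e => u ∈ e)).card ≤ 2
  · have h1 : A.card ≤ 6 := by
      rw [card_eq_sum_filter h hf hA]
      refine le_trans (Finset.sum_le_sum hall) ?_
      simp [hfc]
    have h2 : ∑ u ∈ f, (3 + 2 * (atv H f u).card) ≤ ∑ u ∈ f, D := Finset.sum_le_sum hN
    rw [Finset.sum_add_distrib, ← Finset.mul_sum, ← hL] at h2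
    simp [hfc] at h2
    omega
  push Not at hall
  obtain ⟨x, hx, hn⟩ := hall
  have hne : (A.filter (fun e => x ∈ e)).Nonempty := by
    rw [← Finset.card_pos]; omega
  obtain ⟨g, hg⟩ := hne
  rw [mem_filter] at hg
  have hl2 : ∀ u ∈ f, u ≠ x → (longs H f A x u).card ≤ 2 := by
    intro u hu hux
    have := card_longs_le h hf hA hx hu hux hg.1 hg.2
    rw [hsz g (mem_meets.1 (hA hg.1)).1] at this
    exact this
  set n := (A.filter (fun e => x ∈ e)).card with hndef
  have k1 : ∀ u ∈ f, u ≠ x → (A.filter (fun e => u ∈ e)).card ≤ (longs H f A x u).card := by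
    intro u hu hux
    refine Finset.card_le_card ?_
    intro e he
    rw [mem_filter] at he
    rw [longs, mem_filter, atv, mem_filter]
    exact ⟨⟨hA he.1, he.2⟩, fun g hg hxg => hcross e he.1 g hg u hu x hx he.2 hxg hux⟩
  have k2 : ∀ u ∈ f, u ≠ x → (atv H f u).card ≤ (longs H f A x u).card +
      (U.filter (fun e => u ∈ e)).card := by
    intro u hu hux
    have : (atv H f u) ⊆ longs H f A x u ∪ U.filter (fun e => u ∈ e) := by
      intro e he
      rw [mem_union]
      by_cases hlong : ∀ g ∈ A, x ∈ g → ¬ Disjoint e g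
      · left
        rw [longs, mem_filter]
        exact ⟨he, hlong⟩
      · right
        push Not at hlong
        obtain ⟨g, hg, hxg, hdis⟩ := hlong
        rw [atv, mem_filter] at he
        rw [mem_filter]
        exact ⟨hunb e he.1 g hg u hu x hx he.2 hxg hux hdis, he.2⟩
    exact le_trans (Finset.card_le_card this) (Finset.card_union_le _ _)
  have hnδ : n ≤ (atv H f x).card := by
    refine Finset.card_le_card ?_
    intro e he
    rw [mem_filter] at he
    rw [atv, mem_filter]
    exact ⟨hA he.1, he.2⟩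
  have hec : (f.erase x).card = 2 := by rw [card_erase_of_mem hx, hfc]
  have k5 : A.card ≤ n + 4 := by
    rw [card_eq_sum_filter h hf hA, ← Finset.add_sum_erase _ _ hx]
    refine Nat.add_le_add_left ?_ _
    have : ∑ u ∈ f.erase x, (A.filter (fun e => u ∈ e)).card ≤ ∑ u ∈ f.erase x, 2 := by
      refine Finset.sum_le_sum fun u hu => ?_
      have hu' := mem_erase.1 hu
      exact le_trans (k1 u hu'.2 hu'.1) (hl2 u hu'.2 hu'.1)
    simpa [hec] using this
  have k6 : ∑ u ∈ f.erase x, (atv H f u).card ≤ 4 + U.card := by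
    rw [card_eq_sum_filter h hf hU, ← Finset.add_sum_erase f (fun u => (U.filter _).card) hx]
    have : ∑ u ∈ f.erase x, (atv H f u).card ≤
        ∑ u ∈ f.erase x, (2 + (U.filter (fun e => u ∈ e)).card) := by
      refine Finset.sum_le_sum fun u hu => ?_
      have hu' := mem_erase.1 hu
      have := k2 u hu'.2 hu'.1
      have := hl2 u hu'.2 hu'.1
      omega
    rw [Finset.sum_add_distrib] at this
    simp [hec] at this
    omega
  have k7 : 6 + 2 * ∑ u ∈ f.erase x, (atv H f u).card ≤ 2 * D := by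
    have : ∑ u ∈ f.erase x, (3 + 2 * (atv H f u).card) ≤ ∑ u ∈ f.erase x, D :=
      Finset.sum_le_sum fun u hu => hN u (mem_of_mem_erase hu)
    rw [Finset.sum_add_distrib, ← Finset.mul_sum] at this
    simpa [hec] using this
  have k8 := hN x hx
  rw [hL, ← Finset.add_sum_erase _ _ hx]
  omega

end CI

end Pool.Agent.Helper4.BF
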