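import Mathlib
import Pool.Agent.Lib.Helper4.BF.LP
import Pool.Agent.Lib.Helper4.BF.Comb

/-!
# Exchange inequalities for a matching of maximum weight
-/

namespace Pool.Agent.Helper4.BF

open Finset
open scoped NNReal

variable {V : Type*} [DecidableEq V]

/-- The edges of `M` that meet `e`. -/
def hit (M : Finset (Finset V)) (e : Finset V) : Finset (Finset V) :=
  M.filter (fun f => ¬ Disjoint e f)

lemma mem_hit {M : Finset (Finset V)} {e f : Finset V} : f ∈ hit M e ↔ f ∈ M ∧ ¬ Disjoint e f := by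
  simp [hit]

/-- The edges that meet `f` but no other edge of `M`. -/
def priv (H M : Finset (Finset V)) (f : Finset V) : Finset (Finset V) :=
  (meets H f).filter (fun e => ∀ f' ∈ M, f' ≠ f → Disjoint e f')

lemma mem_priv {H M : Finset (Finset V)} {e f : Finset V} : e ∈ priv H M f ↔
    e ∈ meets H f ∧ ∀ f' ∈ M, f' ≠ f → Disjoint e f' := by
  simp [priv]

/-- The signed surplus of `e` with respect to `f`. -/
noncomputable def sur (w : Finset V → ℝ) (f e : Finset V) : ℝ :=
  ((e.card : ℝ) - 1) * w e - ((e.card : ℝ) - 2) * w f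

noncomputable def sig (w : Finset V → ℝ) (f e : Finset V) : ℝ≥0 := Real.toNNReal (sur w f e)

noncomputable def mu (w : Finset V → ℝ) (H M : Finset (Finset V)) (f e : Finset V) : ℝ≥0 :=
  ((priv H M f).filter (fun g => Disjoint e g)).sup (sig w f)

/-- The hypotheses on a matching of maximum weight. -/
structure MaxM (H M : Finset (Finset V)) (w : Finset V → ℝ) : Prop where
  lin : IsLinear H
  sub : M ⊆ H
  mat : IsMatching M
  pos : ∀ e ∈ H, 0 < w e
  max : ∀ N ⊆ H, IsMatching N → ∑ e ∈ N, w e ≤ ∑ e ∈ M, w e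
  size : ∀ e ∈ H, 3 ≤ e.card

variable {H M : Finset (Finset V)} {w : Finset V → ℝ}

lemma MaxM.exch (h : MaxM H M w) {E : Finset (Finset V)} (hE : E ⊆ H) (hEm : IsMatching E) :
    ∑ e ∈ E, w e ≤ ∑ f ∈ M.filter (fun f => ∃ e ∈ E, ¬ Disjoint e f), w f := by
  classical
  set K := M.filter (fun f => ¬ ∃ e ∈ E, ¬ Disjoint e f) with hK
  have hKE : Disjoint K E := by
    rw [Finset.disjoint_left]
    intro e he heE
    rw [hK, mem_filter] at he
    have hne : 3 ≤ e.card := h.size e (hE heE)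
    apply he.2
    refine ⟨e, heE, ?_⟩
    rw [Finset.disjoint_self_iff_empty]
    rintro rfl
    simp at hne
  have hN : IsMatching (K ∪ E) := by
    intro a ha b hb hab
    rw [mem_union] at ha hb
    rcases ha with ha | ha <;> rcases hb with hb | hb
    · exact h.mat a (mem_filter.1 ha).1 b (mem_filter.1 hb).1 hab
    · by_contra hcon
      exact (mem_filter.1 ha).2 ⟨b, hb, fun hd => hcon hd.symm⟩
    · by_contra hcon
      exact (mem_filter.1 hb).2 ⟨a, ha, hcon⟩
    · exact hEm a ha b hb hab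
  have hsub : K ∪ E ⊆ H := union_subset ((filter_subset _ _).trans h.sub) hE
  have h1 := h.max _ hsub hN
  rw [sum_union hKE] at h1
  have h2 := Finset.sum_filter_add_sum_filter_not M (fun f => ∃ e ∈ E, ¬ Disjoint e f) w
  linarith

lemma MaxM.exch1 (h : MaxM H M w) {e : Finset V} (he : e ∈ H) :
    w e ≤ ∑ f ∈ hit M e, w f := by
  have h1 := h.exch (E := {e}) (by simpa using he) (by
    intro a ha b hb hab
    simp only [mem_singleton] at ha hb
    exact absurd (ha.trans hb.symm) hab)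
  have h2 : M.filter (fun f => ∃ e' ∈ ({e} : Finset (Finset V)), ¬ Disjoint e' f) = hit M e := by
    ext f
    simp [hit]
  rw [h2] at h1
  simpa using h1

lemma MaxM.exch2 (h : MaxM H M w) {e g : Finset V} (he : e ∈ H) (hg : g ∈ H)
    (heg : Disjoint e g) :
    w e + w g ≤ ∑ f ∈ M.filter (fun f => ¬ Disjoint e f ∨ ¬ Disjoint g f), w f := by
  have hne : e ≠ g := by
    rintro rfl
    have := h.size e he
    rw [Finset.disjoint_self_iff_empty] at heg
    subst heg
    simp at this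
  have h1 := h.exch (E := {e, g}) (by
      intro a ha
      simp only [mem_insert, mem_singleton] at ha
      rcases ha with rfl | rfl
      · exact he
      · exact hg) (by
    intro a ha b hb hab
    simp only [mem_insert, mem_singleton] at ha hb
    rcases ha with rfl | rfl <;> rcases hb with rfl | rfl
    · exact absurd rfl hab
    · exact heg
    · exact heg.symm
    · exact absurd rfl hab)
  have h2 : M.filter (fun f => ∃ e' ∈ ({e, g} : Finset (Finset V)), ¬ Disjoint e' f) =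
      M.filter (fun f => ¬ Disjoint e f ∨ ¬ Disjoint g f) := by
    ext f
    simp
  rw [h2, sum_pair hne] at h1
  exact h1

lemma priv_mem {e f : Finset V} (he : e ∈ priv H M f) : e ∈ H :=
  (mem_meets.1 (mem_priv.1 he).1).1

lemma hit_priv {e f : Finset V} (hf : f ∈ M) (he : e ∈ priv H M f) : hit M e = {f} := by
  rw [mem_priv, mem_meets] at he
  ext f'
  rw [mem_hit, mem_singleton]
  constructor
  · rintro ⟨hf', hd⟩
    by_contra hne
    exact hd (he.2 f' hf' hne)
  · rintro rfl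
    exact ⟨hf, he.1.2.2⟩

lemma MaxM.priv_le (h : MaxM H M w) {e f : Finset V} (hf : f ∈ M) (he : e ∈ priv H M f) :
    w e ≤ w f := by
  have := h.exch1 (priv_mem he)
  rw [hit_priv hf he] at this
  simpa using this

lemma MaxM.priv_pair (h : MaxM H M w) {e g f : Finset V} (hf : f ∈ M) (he : e ∈ priv H M f)
    (hg : g ∈ priv H M f) (heg : Disjoint e g) : w e + w g ≤ w f := by
  have h1 := h.exch2 (priv_mem he) (priv_mem hg) heg
  have h2 : M.filter (fun f => ¬ Disjoint e f ∨ ¬ Disjoint g f) = {f} := by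
    ext f'
    rw [mem_filter, mem_singleton]
    rw [mem_priv, mem_meets] at he hg
    constructor
    · rintro ⟨hf', hd⟩
      by_contra hne
      rcases hd with hd | hd
      · exact hd (he.2 f' hf' hne)
      · exact hd (hg.2 f' hf' hne)
    · rintro rfl
      exact ⟨hf, Or.inl he.1.2.2⟩
  rw [h2] at h1
  simpa using h1

lemma MaxM.sur_add (h : MaxM H M w) {e g f : Finset V} (hf : f ∈ M) (he : e ∈ priv H M f)
    (hg : g ∈ priv H M f) (heg : Disjoint e g) : sur w f e + sur w f g ≤ 0 := by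
  have h1 := h.priv_pair hf he hg heg
  have he3 : (3:ℝ) ≤ e.card := by exact_mod_cast h.size e (priv_mem he)
  have hg3 : (3:ℝ) ≤ g.card := by exact_mod_cast h.size g (priv_mem hg)
  have hwe := h.pos e (priv_mem he)
  have hwg := h.pos g (priv_mem hg)
  unfold sur
  rcases le_total (e.card : ℝ) (g.card : ℝ) with hle | hle
  · nlinarith [mul_nonneg (sub_nonneg.2 hle) hwe.le,
      mul_nonneg (by linarith : (0:ℝ) ≤ (g.card : ℝ) - 1) (sub_nonneg.2 h1),
      mul_nonneg (by linarith : (0:ℝ) ≤ (e.card : ℝ) - 3) (by linarith : (0:ℝ) ≤ w f)]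
  · nlinarith [mul_nonneg (sub_nonneg.2 hle) hwg.le,
      mul_nonneg (by linarith : (0:ℝ) ≤ (e.card : ℝ) - 1) (sub_nonneg.2 h1),
      mul_nonneg (by linarith : (0:ℝ) ≤ (g.card : ℝ) - 3) (by linarith : (0:ℝ) ≤ w f)]

lemma sig_coe_of_pos {f e : Finset V} (h : 0 < sig w f e) : (sig w f e : ℝ) = sur w f e := by
  unfold sig at *
  rw [Real.toNNReal_pos] at h
  exact Real.coe_toNNReal _ h.le

lemma sur_le_sig {f e : Finset V} : sur w f e ≤ (sig w f e : ℝ) := Real.le_coe_toNNReal _

lemma MaxM.sig_le (h : MaxM H M w) {e f : Finset V} (hf : f ∈ M) (he : e ∈ priv H M f) :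
    (sig w f e : ℝ) ≤ w e := by
  have h1 := h.priv_le hf he
  have he3 : (3:ℝ) ≤ e.card := by exact_mod_cast h.size e (priv_mem he)
  have hwe := h.pos e (priv_mem he)
  unfold sig sur
  rw [Real.coe_toNNReal', max_le_iff]
  refine ⟨?_, hwe.le⟩
  nlinarith [mul_nonneg (by linarith : (0:ℝ) ≤ (e.card : ℝ) - 2) (sub_nonneg.2 h1)]

lemma mu_cases (f e : Finset V) : mu w H M f e = 0 ∨
    ∃ g ∈ priv H M f, Disjoint e g ∧ mu w H M f e = sig w f g ∧ 0 < sig w f g := by
  classical
  by_cases hz : mu w H M f e = 0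
  · exact Or.inl hz
  · right
    have hne : ((priv H M f).filter (fun g => Disjoint e g)).Nonempty := by
      by_contra hcon
      rw [Finset.not_nonempty_iff_eq_empty] at hcon
      apply hz
      unfold mu
      rw [hcon, Finset.sup_empty]
      rfl
    obtain ⟨g, hg, hgs⟩ := Finset.exists_mem_eq_sup _ hne (sig w f)
    rw [mem_filter] at hg
    have h2 : mu w H M f e = sig w f g := hgs
    refine ⟨g, hg.1, hg.2, h2, ?_⟩
    rw [← h2]
    exact pos_iff_ne_zero.2 hz

lemma le_mu {f e g : Finset V} (hg : g ∈ priv H M f) (heg : Disjoint e g) :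
    sig w f g ≤ mu w H M f e :=
  Finset.le_sup (f := sig w f) (mem_filter.2 ⟨hg, heg⟩)

lemma MaxM.mu_le (h : MaxM H M w) {e f : Finset V} (hf : f ∈ M) :
    (mu w H M f e : ℝ) ≤ w f := by
  rcases mu_cases (w := w) (H := H) (M := M) f e with h0 | ⟨g, hg, _, h2, _⟩
  · rw [h0]; simpa using (h.pos f (h.sub hf)).le
  · rw [h2]
    exact (h.sig_le hf hg).trans (h.priv_le hf hg)

lemma MaxM.mu_le_gap (h : MaxM H M w) {e f : Finset V} (he : e ∈ H) (hf : f ∈ hit M e) :
    (mu w H M f e : ℝ) ≤ ∑ f' ∈ hit M e, w f' - w e := by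
  rcases mu_cases (w := w) (H := H) (M := M) f e with h0 | ⟨g, hg, hd, h2, _⟩
  · rw [h0]
    simpa using h.exch1 he
  · rw [h2]
    have h3 := h.exch2 he (priv_mem hg) hd
    have hfM := (mem_hit.1 hf).1
    have h4 : M.filter (fun f => ¬ Disjoint e f ∨ ¬ Disjoint g f) = hit M e := by
      ext f'
      rw [mem_filter, mem_hit]
      constructor
      · rintro ⟨hf', hd' | hd'⟩
        · exact ⟨hf', hd'⟩
        · have : f' ∈ hit M g := mem_hit.2 ⟨hf', hd'⟩
          rw [hit_priv hfM hg, mem_singleton] at this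
          subst this
          exact mem_hit.1 hf
      · rintro ⟨hf', hd'⟩
        exact ⟨hf', Or.inl hd'⟩
    rw [h4] at h3
    have := h.sig_le hfM hg
    linarith

lemma MaxM.card_hit_le (h : MaxM H M w) (e : Finset V) : (hit M e).card ≤ e.card := by
  have h1 : ((hit M e).biUnion (fun f => e ∩ f)).card = ∑ f ∈ hit M e, (e ∩ f).card := by
    refine card_biUnion ?_
    intro a ha b hb hab
    rw [Function.onFun]
    have hd := h.mat a (mem_hit.1 ha).1 b (mem_hit.1 hb).1 hab
    exact Disjoint.mono inter_subset_right inter_subset_right hd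
  have h2 : (hit M e).biUnion (fun f => e ∩ f) ⊆ e := by
    rw [biUnion_subset]
    intro f _
    exact inter_subset_left
  have h3 := Finset.card_le_card h2
  rw [h1] at h3
  refine le_trans ?_ h3
  rw [Finset.card_eq_sum_ones]
  refine Finset.sum_le_sum fun f hf => ?_
  rw [Nat.one_le_iff_ne_zero, Finset.card_ne_zero, ← Finset.not_disjoint_iff_nonempty_inter]
  exact (mem_hit.1 hf).2

/-- The basic estimate for one edge outside `M`. -/
lemma MaxM.phi_le (h : MaxM H M w) {e : Finset V} (he : e ∈ H) (heM : e ∉ M) {γ : ℝ}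
    (hγ0 : 0 ≤ γ) (hγ1 : γ ≤ 1) (hγ2 : 2 * γ ≤ (e.card : ℝ) - 2) :
    w e * ((e.card : ℝ) - (hit M e).card) - ((e.card : ℝ) - 2) * ∑ f ∈ hit M e, w f ≤
      ∑ f ∈ hit M e, ((if e ∈ priv H M f then (sig w f e : ℝ) else 0) -
        γ * (mu w H M f e : ℝ)) := by
  have hwe := h.pos e he
  have he3 : (3:ℝ) ≤ e.card := by exact_mod_cast h.size e he
  have hgap := h.exch1 he
  have hlow : -(γ * ∑ f ∈ hit M e, (mu w H M f e : ℝ)) ≤
      ∑ f ∈ hit M e, ((if e ∈ priv H M f then (sig w f e : ℝ) else 0) -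
        γ * (mu w H M f e : ℝ)) := by
    rw [Finset.mul_sum, ← Finset.sum_neg_distrib]
    refine Finset.sum_le_sum fun f _ => ?_
    split_ifs
    · have : (0:ℝ) ≤ (sig w f e : ℝ) := NNReal.coe_nonneg _
      linarith
    · linarith
  rcases Nat.lt_or_ge (hit M e).card 2 with hlt | hge
  · -- at most one edge of `M` is hit
    rcases Nat.lt_or_ge (hit M e).card 1 with hlt0 | hge1
    · exfalso
      have h0 : hit M e = ∅ := by
        rw [← Finset.card_eq_zero]; omega
      rw [h0] at hgap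
      simp at hgap
      linarith
    · obtain ⟨f, hf⟩ := Finset.card_eq_one.1 (by omega : (hit M e).card = 1)
      have hfM : f ∈ M ∧ ¬ Disjoint e f := mem_hit.1 (by rw [hf]; simp)
      have hpriv : e ∈ priv H M f := by
        rw [mem_priv, mem_meets]
        refine ⟨⟨he, ?_, hfM.2⟩, ?_⟩
        · rintro rfl
          exact heM hfM.1
        · intro f' hf' hne
          by_contra hcon
          have : f' ∈ hit M e := mem_hit.2 ⟨hf', hcon⟩
          rw [hf, mem_singleton] at this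
          exact hne this
      rw [hf]
      simp only [sum_singleton, card_singleton, if_pos hpriv]
      have e1 : w e * ((e.card : ℝ) - (1:ℕ)) - ((e.card : ℝ) - 2) * w f = sur w f e := by
        unfold sur; push_cast; ring
      rw [e1]
      have hmu0 : (0:ℝ) ≤ (mu w H M f e : ℝ) := NNReal.coe_nonneg _
      have hγμ : γ * (mu w H M f e : ℝ) ≤ (mu w H M f e : ℝ) := by nlinarith
      rcases mu_cases (w := w) (H := H) (M := M) f e with h0 | ⟨g, hg, hd, h2, h3⟩
      · rw [h0]
        simpa using sur_le_sig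
      · have h4 := h.sur_add hfM.1 hpriv hg hd
        have h5 : (mu w H M f e : ℝ) = sur w f g := by rw [h2]; exact sig_coe_of_pos h3
        have h6 : (0:ℝ) ≤ (sig w f e : ℝ) := NNReal.coe_nonneg _
        linarith
  · refine le_trans ?_ hlow
    have hAmu : ∑ f ∈ hit M e, (mu w H M f e : ℝ) ≤ ∑ f ∈ hit M e, w f :=
      Finset.sum_le_sum fun f hf => h.mu_le (mem_hit.1 hf).1
    have hmu0 : 0 ≤ ∑ f ∈ hit M e, (mu w H M f e : ℝ) :=
      Finset.sum_nonneg fun f _ => NNReal.coe_nonneg _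
    have hγμ : γ * ∑ f ∈ hit M e, (mu w H M f e : ℝ) ≤ ∑ f ∈ hit M e, (mu w H M f e : ℝ) := by
      nlinarith
    rcases Nat.lt_or_ge (hit M e).card 3 with hlt3 | hge3
    · -- exactly two
      have h2 : (hit M e).card = 2 := by omega
      rw [h2]
      have hsum : ∑ f ∈ hit M e, (mu w H M f e : ℝ) ≤
          2 * (∑ f ∈ hit M e, w f - w e) := by
        have := Finset.sum_le_card_nsmul (hit M e) (fun f => (mu w H M f e : ℝ))
          (∑ f ∈ hit M e, w f - w e) (fun f hf => h.mu_le_gap he hf)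
        rw [h2] at this
        simpa using this
      set A := ∑ f ∈ hit M e, w f
      set μ := ∑ f ∈ hit M e, (mu w H M f e : ℝ)
      push_cast
      have h7 : γ * μ ≤ γ * (2 * (A - w e)) := mul_le_mul_of_nonneg_left hsum hγ0
      have h8 : 2 * γ * (A - w e) ≤ ((e.card : ℝ) - 2) * (A - w e) :=
        mul_le_mul_of_nonneg_right hγ2 (by linarith)
      nlinarith
    · have h3r : (3:ℝ) ≤ (hit M e).card := by exact_mod_cast hge3
      have hle : ((hit M e).card : ℝ) ≤ e.card := by exact_mod_cast h.card_hit_le e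
      set A := ∑ f ∈ hit M e, w f
      set μ := ∑ f ∈ hit M e, (mu w H M f e : ℝ)
      have h9 : w e * ((e.card : ℝ) - (hit M e).card) ≤ A * ((e.card : ℝ) - (hit M e).card) :=
        mul_le_mul_of_nonneg_right hgap (by linarith)
      have hA0 : 0 ≤ A := by linarith
      nlinarith [mul_nonneg hA0 (by linarith : (0:ℝ) ≤ ((hit M e).card : ℝ) - 3)]

lemma MaxM.sum_swap (h : MaxM H M w) (F : Finset V → Finset V → ℝ) :
    ∑ e ∈ H \ M, ∑ f ∈ hit M e, F f e = ∑ f ∈ M, ∑ e ∈ meets H f, F f e := by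
  refine Finset.sum_comm' ?_
  intro e f
  rw [mem_sdiff, mem_hit, mem_meets]
  constructor
  · rintro ⟨⟨he, heM⟩, hf, hd⟩
    refine ⟨⟨he, ?_, hd⟩, hf⟩
    rintro rfl
    exact heM hf
  · rintro ⟨⟨he, hne, hd⟩, hf⟩
    exact ⟨⟨he, fun heM => hd (h.mat e heM f hf hne)⟩, hf, hd⟩

/-- The main inequality, given the local inequality at every edge of `M`. -/
theorem MaxM.main (h : MaxM H M w) {γ : ℝ} (hγ0 : 0 ≤ γ) (hγ1 : γ ≤ 1)
    (hγ2 : ∀ e ∈ H, 2 * γ ≤ (e.card : ℝ) - 2) (c : Finset V → ℝ)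
    (hFI : ∀ f ∈ M, ∑ e ∈ priv H M f, (sig w f e : ℝ) ≤
      c f * w f + γ * ∑ e ∈ meets H f, (mu w H M f e : ℝ)) :
    ∑ e ∈ H \ M, w e * ((e.card : ℝ) - (hit M e).card) ≤
      ∑ f ∈ M, w f * (c f + ∑ e ∈ meets H f, ((e.card : ℝ) - 2)) := by
  have h1 : ∑ e ∈ H \ M, (w e * ((e.card : ℝ) - (hit M e).card) -
      ((e.card : ℝ) - 2) * ∑ f ∈ hit M e, w f) ≤
      ∑ e ∈ H \ M, ∑ f ∈ hit M e, ((if e ∈ priv H M f then (sig w f e : ℝ) else 0) -
        γ * (mu w H M f e : ℝ)) := by
    refine Finset.sum_le_sum fun e he => ?_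
    rw [mem_sdiff] at he
    exact h.phi_le he.1 he.2 hγ0 hγ1 (hγ2 e he.1)
  rw [h.sum_swap] at h1
  have h2 : ∑ f ∈ M, ∑ e ∈ meets H f, ((if e ∈ priv H M f then (sig w f e : ℝ) else 0) -
        γ * (mu w H M f e : ℝ)) ≤ ∑ f ∈ M, c f * w f := by
    refine Finset.sum_le_sum fun f hf => ?_
    rw [Finset.sum_sub_distrib, ← Finset.mul_sum]
    have h3 : ∑ e ∈ meets H f, (if e ∈ priv H M f then (sig w f e : ℝ) else 0) =
        ∑ e ∈ priv H M f, (sig w f e : ℝ) := by
      rw [← Finset.sum_filter]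
      refine Finset.sum_congr ?_ fun _ _ => rfl
      ext e
      rw [mem_filter]
      exact ⟨fun h => h.2, fun h => ⟨(mem_priv.1 h).1, h⟩⟩
    rw [h3]
    have := hFI f hf
    linarith
  have h4 : ∑ e ∈ H \ M, ((e.card : ℝ) - 2) * ∑ f ∈ hit M e, w f =
      ∑ f ∈ M, ∑ e ∈ meets H f, ((e.card : ℝ) - 2) * w f := by
    rw [← h.sum_swap (fun f e => ((e.card : ℝ) - 2) * w f)]
    refine Finset.sum_congr rfl fun e _ => ?_
    rw [Finset.mul_sum]
  rw [Finset.sum_sub_distrib] at h1
  have h5 : ∑ f ∈ M, w f * (c f + ∑ e ∈ meets H f, ((e.card : ℝ) - 2)) =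
      ∑ f ∈ M, c f * w f + ∑ f ∈ M, ∑ e ∈ meets H f, ((e.card : ℝ) - 2) * w f := by
    rw [← Finset.sum_add_distrib]
    refine Finset.sum_congr rfl fun f _ => ?_
    rw [← Finset.sum_mul]
    ring
  linarith

/-- Passing from the layers to the local inequality. -/
theorem MaxM.local_of_layers (h : MaxM H M w) {γ c : ℝ} (hγ0 : 0 ≤ γ) {f : Finset V} (hf : f ∈ M)
    (hlay : ∀ A U : Finset (Finset V), A ⊆ meets H f → U ⊆ meets H f →
      (∀ e ∈ A, ∀ g ∈ A, ∀ u ∈ f, ∀ x ∈ f, u ∈ e → x ∈ g → u ≠ x → ¬ Disjoint e g) →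
      (∀ e ∈ meets H f, ∀ g ∈ A, ∀ u ∈ f, ∀ x ∈ f, u ∈ e → x ∈ g → u ≠ x →
        Disjoint e g → e ∈ U) → (A.card : ℝ) ≤ c + γ * U.card) :
    ∑ e ∈ priv H M f, (sig w f e : ℝ) ≤ c * w f + γ * ∑ e ∈ meets H f, (mu w H M f e : ℝ) := by
  refine sum_le_of_layers _ _ _ _ (w f) c γ hγ0 (h.pos f (h.sub hf)).le
    (fun e _ => NNReal.coe_nonneg _) (fun e he => (h.sig_le hf he).trans (h.priv_le hf he))
    (fun e _ => NNReal.coe_nonneg _) ?_
  intro θ hθ
  refine hlay _ _ ?_ ?_ ?_ ?_
  · exact (filter_subset _ _).trans (filter_subset _ _)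
  · exact filter_subset _ _
  · intro e he g hg u hu x hx hue hxg hux hd
    rw [mem_filter] at he hg
    have h1 := h.sur_add hf he.1 hg.1 hd
    have h2 : 0 < sig w f e := by
      rw [← NNReal.coe_pos]; linarith [he.2]
    have h3 : 0 < sig w f g := by
      rw [← NNReal.coe_pos]; linarith [hg.2]
    have h4 := sig_coe_of_pos h2
    have h5 := sig_coe_of_pos h3
    linarith [he.2, hg.2]
  · intro e he g hg u hu x hx hue hxg hux hd
    rw [mem_filter] at hg ⊢
    refine ⟨he, hg.2.trans ?_⟩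
    exact_mod_cast le_mu hg.1 hd

end Pool.Agent.Helper4.BF
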