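import Mathlib
import Pool.Agent.Lib.Helper4.BF.Exchange

/-!
# Fractional colourings: optimal pairs, averaging and the induction
-/

namespace Pool.Agent.Helper4.BF

open Finset

variable {V : Type*} [DecidableEq V]

open Classical in
/-- The matchings contained in `H`. -/
noncomputable def matchings (H : Finset (Finset V)) : Finset (Finset (Finset V)) :=
  H.powerset.filter (fun M => IsMatching M)

lemma mem_matchings {H M : Finset (Finset V)} : M ∈ matchings H ↔ M ⊆ H ∧ IsMatching M := by
  simp [matchings]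

/-- An optimal pair (fractional colouring, weighting). -/
structure OptPair (H : Finset (Finset V)) (k : ℝ) (w : Finset V → ℝ)
    (y : Finset (Finset V) → ℝ) : Prop where
  w0 : ∀ e, 0 ≤ w e
  y0 : ∀ M, 0 ≤ y M
  wk : ∑ e ∈ H, w e = k
  yk : ∑ M ∈ matchings H, y M = k
  pack : ∀ M ∈ matchings H, ∑ e ∈ M, w e ≤ 1
  cover : ∀ e ∈ H, 1 ≤ ∑ M ∈ (matchings H).filter (fun M => e ∈ M), y M
  slackw : ∀ e ∈ H, w e ≠ 0 → ∑ M ∈ (matchings H).filter (fun M => e ∈ M), y M = 1
  slacky : ∀ M ∈ matchings H, y M ≠ 0 → ∑ e ∈ M, w e = 1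

theorem exists_optPair (H : Finset (Finset V)) (hne : H.Nonempty) :
    ∃ k w y, OptPair H k w y := by
  classical
  have : Nonempty H := hne.to_subtype
  have hmne : (matchings H).Nonempty :=
    ⟨∅, mem_matchings.2 ⟨empty_subset _, by intro e he; simp at he⟩⟩
  have : Nonempty (matchings H) := hmne.to_subtype
  set A : H → matchings H → ℝ := fun e M => if (e : Finset V) ∈ (M : Finset (Finset V)) then 1 else 0
    with hA
  obtain ⟨k, w, y, hk, hw, hy, hwk, hyk, h1, h2⟩ := lp_pair A
    (by intro e M; simp only [hA]; split_ifs <;> norm_num)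
    (by
      intro e
      refine ⟨⟨{(e : Finset V)}, mem_matchings.2 ⟨by simp, ?_⟩⟩, by simp [hA]⟩
      intro a ha b hb hab
      simp only [mem_singleton] at ha hb
      exact absurd (ha.trans hb.symm) hab)
  obtain ⟨s1, s2⟩ := slackness A hw hy hwk hyk h1 h2
  set w' : Finset V → ℝ := fun e => if h : e ∈ H then w ⟨e, h⟩ else 0 with hw'
  set y' : Finset (Finset V) → ℝ := fun M => if h : M ∈ matchings H then y ⟨M, h⟩ else 0 with hy'
  have hw'e : ∀ e : H, w' e = w e := by
    intro e; simp [hw']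
  have hy'e : ∀ M : matchings H, y' M = y M := by
    intro M; simp [hy']
  -- sums over a matching
  have c1 : ∀ M : matchings H, ∑ e, w e * A e M = ∑ e ∈ (M : Finset (Finset V)), w' e := by
    intro M
    have hsub : (M : Finset (Finset V)) ⊆ H := (mem_matchings.1 M.2).1
    calc ∑ e, w e * A e M = ∑ e : H, (if (e : Finset V) ∈ (M : Finset (Finset V)) then w' e else 0) := by
          refine Finset.sum_congr rfl fun e _ => ?_
          rw [hw'e]; simp only [hA]; split_ifs <;> simp
      _ = ∑ e ∈ H, (if e ∈ (M : Finset (Finset V)) then w' e else 0) :=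
          Finset.sum_coe_sort H (fun e => if e ∈ (M : Finset (Finset V)) then w' e else 0)
      _ = ∑ e ∈ (M : Finset (Finset V)), w' e := by
          rw [← Finset.sum_filter]
          refine Finset.sum_congr ?_ fun _ _ => rfl
          ext e
          rw [mem_filter]
          exact ⟨fun h => h.2, fun h => ⟨hsub h, h⟩⟩
  have c2 : ∀ e : H, ∑ M, A e M * y M =
      ∑ M ∈ (matchings H).filter (fun M => (e : Finset V) ∈ M), y' M := by
    intro e
    calc ∑ M, A e M * y M = ∑ M : matchings H,
            (if (e : Finset V) ∈ (M : Finset (Finset V)) then y' M else 0) := by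
          refine Finset.sum_congr rfl fun M _ => ?_
          rw [hy'e]; simp only [hA]; split_ifs <;> simp
      _ = ∑ M ∈ matchings H, (if (e : Finset V) ∈ M then y' M else 0) :=
          Finset.sum_coe_sort (matchings H) (fun M => if (e : Finset V) ∈ M then y' M else 0)
      _ = _ := by rw [← Finset.sum_filter]
  refine ⟨k, w', y', ?_, ?_, ?_, ?_, ?_, ?_, ?_, ?_⟩
  · intro e; simp only [hw']; split_ifs
    · exact hw _
    · exact le_rfl
  · intro M; simp only [hy']; split_ifs
    · exact hy _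
    · exact le_rfl
  · rw [← Finset.sum_coe_sort H w', ← hwk]
    exact Finset.sum_congr rfl fun e _ => hw'e e
  · rw [← Finset.sum_coe_sort (matchings H) y', ← hyk]
    exact Finset.sum_congr rfl fun M _ => hy'e M
  · intro M hM
    rw [← c1 ⟨M, hM⟩]
    exact h1 _
  · intro e he
    rw [← c2 ⟨e, he⟩]
    exact h2 _
  · intro e he hwe
    rw [← c2 ⟨e, he⟩]
    refine s1 _ ?_
    rw [← hw'e ⟨e, he⟩]
    exact hwe
  · intro M hM hyM
    rw [← c1 ⟨M, hM⟩]
    refine s2 _ ?_
    rw [← hy'e ⟨M, hM⟩]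
    exact hyM

/-- Every nonnegative weighting has a matching of weight at least `w(H) / D`. -/
def Dual (H : Finset (Finset V)) (D : ℝ) : Prop :=
  ∀ w : Finset V → ℝ, (∀ e, 0 ≤ w e) → ∃ M ∈ matchings H, ∑ e ∈ H, w e ≤ D * ∑ e ∈ M, w e

lemma OptPair.dual {H : Finset (Finset V)} {k : ℝ} {w : Finset V → ℝ}
    {y : Finset (Finset V) → ℝ} (h : OptPair H k w y) {D : ℝ} (hkD : k ≤ D) : Dual H D := by
  classical
  intro w' hw'
  have hmne : (matchings H).Nonempty :=
    ⟨∅, mem_matchings.2 ⟨empty_subset _, by intro e he; simp at he⟩⟩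
  obtain ⟨M, hM, hmax⟩ := Finset.exists_max_image (matchings H) (fun M => ∑ e ∈ M, w' e) hmne
  refine ⟨M, hM, ?_⟩
  have h0 : 0 ≤ ∑ e ∈ M, w' e := Finset.sum_nonneg fun e _ => hw' e
  calc ∑ e ∈ H, w' e ≤ ∑ e ∈ H, w' e * ∑ N ∈ (matchings H).filter (fun N => e ∈ N), y N := by
        refine Finset.sum_le_sum fun e he => ?_
        have := h.cover e he
        nlinarith [hw' e]
    _ = ∑ N ∈ matchings H, y N * ∑ e ∈ N, w' e := by
        simp only [Finset.mul_sum]
        rw [Finset.sum_comm' (t' := matchings H) (s' := fun N => N)]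
        · refine Finset.sum_congr rfl fun N _ => Finset.sum_congr rfl fun e _ => mul_comm _ _
        · intro e N
          rw [mem_filter, mem_matchings]
          constructor
          · rintro ⟨_, ⟨h1, h2⟩, h3⟩
            exact ⟨h3, h1, h2⟩
          · rintro ⟨h3, h1, h2⟩
            exact ⟨h1 h3, ⟨h1, h2⟩, h3⟩
    _ ≤ ∑ N ∈ matchings H, y N * ∑ e ∈ M, w' e := by
        refine Finset.sum_le_sum fun N hN => ?_
        exact mul_le_mul_of_nonneg_left (hmax N hN) (h.y0 N)
    _ = k * ∑ e ∈ M, w' e := by rw [← Finset.sum_mul, h.yk]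
    _ ≤ D * ∑ e ∈ M, w' e := mul_le_mul_of_nonneg_right hkD h0

/-- An edge meeting fewer than `D` others can be removed. -/
theorem dual_step_small {H : Finset (Finset V)} {f : Finset V} (hf : f ∈ H) {D : ℕ}
    (hlt : (meets H f).card < D) (hd : Dual (H.erase f) D) : Dual H D := by
  classical
  intro w hw
  set w1 : Finset V → ℝ := fun e => w e - (if e ∈ meets H f then w f else 0) with hw1
  obtain ⟨M, hM, hMw⟩ := hd (fun e => max 0 (w1 e)) (fun e => le_max_left _ _)
  rw [mem_matchings] at hM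
  set N := M.filter (fun e => 0 < w1 e) with hN
  have hNw : ∑ e ∈ M, max 0 (w1 e) = ∑ e ∈ N, w1 e := by
    rw [hN, Finset.sum_filter]
    refine Finset.sum_congr rfl fun e _ => ?_
    split_ifs with h
    · exact max_eq_right h.le
    · exact max_eq_left (not_lt.1 h)
  have hNH : N ⊆ H := (filter_subset _ _).trans (hM.1.trans (erase_subset _ _))
  have hNM : IsMatching N := fun a ha b hb => hM.2 a (mem_filter.1 ha).1 b (mem_filter.1 hb).1
  have hfN : f ∉ N := fun h => (mem_erase.1 (hM.1 (mem_filter.1 h).1)).1 rfl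
  -- the improved matching
  have hK : ∃ K ∈ matchings H, ∑ e ∈ N, w1 e + w f ≤ ∑ e ∈ K, w e := by
    by_cases hmeet : ∃ e ∈ N, e ∈ meets H f
    · obtain ⟨e0, he0, he0m⟩ := hmeet
      refine ⟨N, mem_matchings.2 ⟨hNH, hNM⟩, ?_⟩
      have h1 : ∑ e ∈ N, w1 e = ∑ e ∈ N, w e - ∑ e ∈ N, (if e ∈ meets H f then w f else 0) := by
        rw [← Finset.sum_sub_distrib]
      have h2 : w f ≤ ∑ e ∈ N, (if e ∈ meets H f then w f else 0) := by
        have := Finset.single_le_sum (f := fun e => if e ∈ meets H f then w f else 0)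
          (fun e _ => by split_ifs; exacts [hw f, le_rfl]) he0
        simpa [he0m] using this
      linarith
    · push Not at hmeet
      refine ⟨insert f N, mem_matchings.2 ⟨?_, ?_⟩, ?_⟩
      · intro e he
        rw [mem_insert] at he
        rcases he with rfl | he
        · exact hf
        · exact hNH he
      · have hdis : ∀ e ∈ N, Disjoint e f := by
          intro e he
          by_contra hcon
          refine hmeet e he (mem_meets.2 ⟨hNH he, ?_, hcon⟩)
          rintro rfl
          exact hfN he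
        intro a ha b hb hab
        rw [mem_insert] at ha hb
        rcases ha with rfl | ha <;> rcases hb with rfl | hb
        · exact absurd rfl hab
        · exact (hdis b hb).symm
        · exact hdis a ha
        · exact hNM a ha b hb hab
      · rw [sum_insert hfN]
        have : ∑ e ∈ N, w1 e = ∑ e ∈ N, w e := by
          refine Finset.sum_congr rfl fun e he => ?_
          simp only [hw1, if_neg (hmeet e he), sub_zero]
        linarith
  obtain ⟨K, hKm, hKw⟩ := hK
  refine ⟨K, hKm, ?_⟩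
  have hmsub : meets H f ⊆ H.erase f := by
    intro e he
    rw [mem_meets] at he
    exact mem_erase.2 ⟨he.2.1, he.1⟩
  have h3 : ∑ e ∈ H.erase f, w1 e = ∑ e ∈ H.erase f, w e - (meets H f).card * w f := by
    simp only [hw1, Finset.sum_sub_distrib]
    congr 1
    rw [← Finset.sum_filter]
    have : (H.erase f).filter (fun e => e ∈ meets H f) = meets H f := by
      ext e
      rw [mem_filter]
      exact ⟨fun h => h.2, fun h => ⟨hmsub h, h⟩⟩
    rw [this, Finset.sum_const, nsmul_eq_mul]
  have h4 : ∑ e ∈ H.erase f, w1 e ≤ ∑ e ∈ H.erase f, max 0 (w1 e) :=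
    Finset.sum_le_sum fun e _ => le_max_right _ _
  have h5 : ∑ e ∈ H, w e = w f + ∑ e ∈ H.erase f, w e := (Finset.add_sum_erase _ _ hf).symm
  have h6 : ((meets H f).card : ℝ) + 1 ≤ D := by exact_mod_cast hlt
  have h7 : (D : ℝ) * (∑ e ∈ N, w1 e + w f) ≤ D * ∑ e ∈ K, w e :=
    mul_le_mul_of_nonneg_left hKw (by positivity)
  rw [hNw] at hMw
  nlinarith [hw f]

/-- Number of vertices of `e` covered by `M`. -/
lemma sum_cov (M : Finset (Finset V)) (e : Finset V) :
    ∑ v ∈ e, (M.filter (fun g => v ∈ g)).card = ∑ g ∈ M, (e ∩ g).card := by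
  simp only [Finset.card_filter]
  rw [Finset.sum_comm]
  refine Finset.sum_congr rfl fun g _ => ?_
  rw [← Finset.card_filter]
  rfl

lemma MaxM.miss_eq {H M : Finset (Finset V)} {w : Finset V → ℝ} (h : MaxM H M w) {e : Finset V}
    (he : e ∈ H) (heM : e ∉ M) :
    ∑ v ∈ e, (M.filter (fun g => v ∈ g)).card = (hit M e).card := by
  rw [sum_cov, hit, Finset.card_filter]
  refine Finset.sum_congr rfl fun g hg => ?_
  by_cases hd : Disjoint e g
  · rw [if_neg (not_not.2 hd)]
    rw [Finset.disjoint_iff_inter_eq_empty] at hd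
    rw [hd, card_empty]
  · rw [if_pos hd]
    have h1 : (e ∩ g).card ≤ 1 := h.lin e he g (h.sub hg) (by rintro rfl; exact heM hg)
    have h2 : (e ∩ g).card ≠ 0 := by
      rw [Finset.card_ne_zero, ← Finset.not_disjoint_iff_nonempty_inter]
      exact hd
    omega

lemma MaxM.miss_eq' {H M : Finset (Finset V)} {w : Finset V → ℝ} (h : MaxM H M w) {e : Finset V}
    (heM : e ∈ M) :
    ∑ v ∈ e, (M.filter (fun g => v ∈ g)).card = e.card := by
  rw [sum_cov, Finset.sum_eq_single e]
  · simp
  · intro g hg hge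
    have := h.mat e heM g hg (Ne.symm hge)
    rw [Finset.disjoint_iff_inter_eq_empty] at this
    rw [this, card_empty]
  · intro h'
    exact absurd heM h'

/-- The averaging step. -/
theorem OptPair.le_of_local {H : Finset (Finset V)} {k : ℝ} {w : Finset V → ℝ}
    {y : Finset (Finset V) → ℝ} (h : OptPair H k w y) (hlin : IsLinear H)
    (hsz : ∀ e ∈ H, 3 ≤ e.card) (hne : H.Nonempty) (hpos : ∀ e ∈ H, 0 < w e) (D : ℝ)
    (hloc : ∀ M, MaxM H M w → ∑ e ∈ H \ M, w e * ((e.card : ℝ) - (hit M e).card) ≤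
      ∑ f ∈ M, w f * ∑ u ∈ f, (D - ((H.filter (fun g => u ∈ g)).card : ℝ))) : k ≤ D := by
  classical
  set deg : V → ℝ := fun u => ((H.filter (fun g => u ∈ g)).card : ℝ) with hdeg
  set cov : Finset (Finset V) → V → ℝ := fun M v => ((M.filter (fun g => v ∈ g)).card : ℝ)
    with hcov
  -- for each matching
  have key : ∀ M ∈ matchings H, y M * ∑ e ∈ H, w e * ∑ v ∈ e, (1 - cov M v) ≤
      y M * ∑ f ∈ M, w f * ∑ u ∈ f, (D - deg u) := by
    intro M hM
    by_cases hyM : y M = 0
    · rw [hyM]; simp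
    refine mul_le_mul_of_nonneg_left ?_ (h.y0 M)
    rw [mem_matchings] at hM
    have hw1 := h.slacky M (mem_matchings.2 hM) hyM
    have hmax : MaxM H M w := ⟨hlin, hM.1, hM.2, hpos, fun N hN hNm => by
      rw [hw1]; exact h.pack N (mem_matchings.2 ⟨hN, hNm⟩), hsz⟩
    refine le_trans (le_of_eq ?_) (hloc M hmax)
    rw [← Finset.sum_sdiff hM.1]
    have z : ∑ e ∈ M, w e * ∑ v ∈ e, (1 - cov M v) = 0 := by
      refine Finset.sum_eq_zero fun e he => ?_
      have := hmax.miss_eq' he
      rw [Finset.sum_sub_distrib]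
      simp only [hcov]
      have h2 : ∑ v ∈ e, ((M.filter (fun g => v ∈ g)).card : ℝ) = (e.card : ℝ) := by
        exact_mod_cast this
      rw [h2]
      simp
    rw [z, add_zero]
    refine Finset.sum_congr rfl fun e he => ?_
    rw [mem_sdiff] at he
    have := hmax.miss_eq he.1 he.2
    rw [Finset.sum_sub_distrib]
    simp only [hcov]
    have h2 : ∑ v ∈ e, ((M.filter (fun g => v ∈ g)).card : ℝ) = ((hit M e).card : ℝ) := by
      exact_mod_cast this
    rw [h2]
    simp
  have hsum := Finset.sum_le_sum key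
  -- evaluate the left side
  have covsum : ∀ v, ∑ M ∈ matchings H, y M * cov M v = deg v := by
    intro v
    calc ∑ M ∈ matchings H, y M * cov M v
        = ∑ M ∈ matchings H, ∑ g ∈ M.filter (fun g => v ∈ g), y M := by
          refine Finset.sum_congr rfl fun M _ => ?_
          rw [Finset.sum_const, nsmul_eq_mul, mul_comm]
      _ = ∑ g ∈ H.filter (fun g => v ∈ g), ∑ M ∈ (matchings H).filter (fun M => g ∈ M), y M := by
          refine Finset.sum_comm' ?_
          intro M g
          simp only [mem_filter, mem_matchings]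
          constructor
          · rintro ⟨⟨h1, h2⟩, h3, h4⟩
            exact ⟨⟨⟨h1, h2⟩, h3⟩, h1 h3, h4⟩
          · rintro ⟨⟨⟨h1, h2⟩, h3⟩, _, h4⟩
            exact ⟨⟨h1, h2⟩, h3, h4⟩
      _ = ∑ g ∈ H.filter (fun g => v ∈ g), 1 := by
          refine Finset.sum_congr rfl fun g hg => ?_
          have hg' := (mem_filter.1 hg).1
          exact h.slackw g hg' (hpos g hg').ne'
      _ = deg v := by simp [hdeg]
  have lhs : ∑ M ∈ matchings H, y M * ∑ e ∈ H, w e * ∑ v ∈ e, (1 - cov M v) =
      ∑ e ∈ H, w e * ∑ v ∈ e, (k - deg v) := by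
    simp only [Finset.mul_sum]
    rw [Finset.sum_comm]
    refine Finset.sum_congr rfl fun e _ => ?_
    rw [Finset.sum_comm]
    refine Finset.sum_congr rfl fun v _ => ?_
    rw [← covsum v, ← h.yk, ← Finset.sum_sub_distrib, Finset.mul_sum]
    refine Finset.sum_congr rfl fun M _ => ?_
    ring
  have rhs : ∑ M ∈ matchings H, y M * ∑ f ∈ M, w f * ∑ u ∈ f, (D - deg u) =
      ∑ e ∈ H, w e * ∑ v ∈ e, (D - deg v) := by
    calc ∑ M ∈ matchings H, y M * ∑ f ∈ M, w f * ∑ u ∈ f, (D - deg u)
        = ∑ M ∈ matchings H, ∑ f ∈ M, y M * (w f * ∑ u ∈ f, (D - deg u)) := by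
          refine Finset.sum_congr rfl fun M _ => ?_
          rw [Finset.mul_sum]
      _ = ∑ f ∈ H, ∑ M ∈ (matchings H).filter (fun M => f ∈ M),
            y M * (w f * ∑ u ∈ f, (D - deg u)) := by
          refine Finset.sum_comm' ?_
          intro M g
          simp only [mem_filter, mem_matchings]
          constructor
          · rintro ⟨⟨h1, h2⟩, h3⟩
            exact ⟨⟨⟨h1, h2⟩, h3⟩, h1 h3⟩
          · rintro ⟨⟨⟨h1, h2⟩, h3⟩, _⟩
            exact ⟨⟨h1, h2⟩, h3⟩
      _ = ∑ f ∈ H, w f * ∑ u ∈ f, (D - deg u) := by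
          refine Finset.sum_congr rfl fun f hf => ?_
          rw [← Finset.sum_mul, h.slackw f hf (hpos f hf).ne', one_mul]
  rw [lhs, rhs] at hsum
  have h8 : ∑ e ∈ H, w e * ∑ v ∈ e, (k - deg v) - ∑ e ∈ H, w e * ∑ v ∈ e, (D - deg v) =
      (k - D) * ∑ e ∈ H, w e * e.card := by
    rw [← Finset.sum_sub_distrib, Finset.mul_sum]
    refine Finset.sum_congr rfl fun e _ => ?_
    rw [← mul_sub, ← Finset.sum_sub_distrib]
    simp
    ring
  have h9 : 0 < ∑ e ∈ H, w e * e.card := by
    refine Finset.sum_pos (fun e he => ?_) hne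
    have : 3 ≤ e.card := hsz e he
    exact mul_pos (hpos e he) (by exact_mod_cast (by omega : 0 < e.card))
  by_contra hcon
  push Not at hcon
  nlinarith [mul_pos (sub_pos.2 hcon) h9]

end Pool.Agent.Helper4.BF
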