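import Mathlib
import Pool.Agent.Lib.Helper4.BF.Frac

/-!
# The induction
-/

namespace Pool.Agent.Helper4.BF

open Finset

variable {V : Type*} [DecidableEq V]

/-- The common induction scheme. -/
theorem dual_induction (C : Finset (Finset V) → Prop) (hC : ∀ H H', H' ⊆ H → C H → C H')
    (hlin : ∀ H, C H → IsLinear H) (hsz : ∀ H, C H → ∀ e ∈ H, 3 ≤ e.card) (D : ℕ)
    (hloc : ∀ H, C H → (∀ f ∈ H, D ≤ (meets H f).card) → ∀ w M, MaxM H M w →
      ∑ e ∈ H \ M, w e * ((e.card : ℝ) - (hit M e).card) ≤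
      ∑ f ∈ M, w f * ∑ u ∈ f, ((D : ℝ) - ((H.filter (fun g => u ∈ g)).card : ℝ)))
    (H : Finset (Finset V)) (hH : C H) : Dual H D := by
  classical
  induction H using Finset.strongInduction with
  | H H ih =>
    rcases H.eq_empty_or_nonempty with rfl | hne
    · intro w _
      exact ⟨∅, mem_matchings.2 ⟨Subset.refl _, by intro e he; simp at he⟩, by simp⟩
    by_cases hsmall : ∃ f ∈ H, (meets H f).card < D
    · obtain ⟨f, hf, hlt⟩ := hsmall
      exact dual_step_small hf hlt (ih _ (erase_ssubset hf) (hC _ _ (erase_subset _ _) hH))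
    push Not at hsmall
    obtain ⟨k, w, y, hopt⟩ := exists_optPair H hne
    refine hopt.dual ?_
    by_contra hkD
    push Not at hkD
    -- all weights are positive
    have hpos : ∀ e ∈ H, 0 < w e := by
      by_contra hcon
      push Not at hcon
      obtain ⟨e0, he0, hw0⟩ := hcon
      have hw0' : w e0 = 0 := le_antisymm hw0 (hopt.w0 e0)
      obtain ⟨M, hM, hMw⟩ := ih _ (erase_ssubset he0) (hC _ _ (erase_subset _ _) hH) w hopt.w0
      rw [mem_matchings] at hM
      have h1 := hopt.pack M (mem_matchings.2 ⟨hM.1.trans (erase_subset _ _), hM.2⟩)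
      have h2 : ∑ e ∈ H.erase e0, w e = k := by
        rw [← hopt.wk, ← Finset.add_sum_erase _ _ he0, hw0', zero_add]
      rw [h2] at hMw
      have h3 : (D : ℝ) * ∑ e ∈ M, w e ≤ D * 1 := mul_le_mul_of_nonneg_left h1 (by positivity)
      linarith
    have := hopt.le_of_local (hlin H hH) (hsz H hH) hne hpos (D : ℝ) (hloc H hH hsmall w)
    linarith

lemma cast_sum_atv {H : Finset (Finset V)} {f : Finset V} {u : V}
    (hsz : ∀ e ∈ H, 3 ≤ e.card) :
    ((∑ e ∈ atv H f u, (e.card - 1) : ℕ) : ℝ) =
      ∑ e ∈ atv H f u, ((e.card : ℝ) - 2) + (atv H f u).card := by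
  push_cast
  have h1 : ((atv H f u).card : ℝ) = ∑ e ∈ atv H f u, (1:ℝ) := by simp
  rw [h1, ← Finset.sum_add_distrib]
  refine Finset.sum_congr rfl fun e he => ?_
  have := hsz e (mem_atv.1 he).1.1
  rw [Nat.cast_sub (by omega)]
  push_cast
  ring

/-- All edges have at least four vertices. -/
theorem dual_four (D : ℕ) (H : Finset (Finset V)) (hlin : IsLinear H)
    (hsz : ∀ e ∈ H, 4 ≤ e.card) (hD : ∀ v, (nbhd H v).card ≤ D) : Dual H D := by
  refine dual_induction
    (fun H => IsLinear H ∧ (∀ e ∈ H, 4 ≤ e.card) ∧ ∀ v, (nbhd H v).card ≤ D) ?_ ?_ ?_ D ?_ H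
    ⟨hlin, hsz, hD⟩
  · intro H H' hs h
    exact ⟨h.1.mono hs, fun e he => h.2.1 e (hs he),
      fun v => (Finset.card_le_card (nbhd_mono hs v)).trans (h.2.2 v)⟩
  · intro H h; exact h.1
  · intro H h e he
    have := h.2.1 e he
    omega
  · rintro H ⟨hlin, hsz, hD⟩ hL w M hM
    have hsz3 : ∀ e ∈ H, 3 ≤ e.card := fun e he => by
      have := hsz e he
      omega
    refine (hM.main (γ := 1) (by norm_num) le_rfl ?_
      (fun f => (f.card : ℝ) * ((f.card : ℝ) - 1)) ?_).trans ?_
    · intro e he
      have : (4:ℝ) ≤ e.card := by exact_mod_cast hsz e he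
      linarith
    · intro f hf
      refine hM.local_of_layers (by norm_num) hf ?_
      intro A U hA hU h1 h2
      have := ci_main hlin (hM.sub hf) hA hU h1 h2 hsz3 D hD (hL f (hM.sub hf))
      have hf1 : 1 ≤ f.card := by
        have := hsz f (hM.sub hf)
        omega
      have h3 : ((f.card * (f.card - 1) : ℕ) : ℝ) = (f.card : ℝ) * ((f.card : ℝ) - 1) := by
        rw [Nat.cast_mul, Nat.cast_sub hf1]
        simp
      rw [one_mul, ← h3]
      exact_mod_cast this
    · refine Finset.sum_le_sum fun f hf => ?_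
      refine mul_le_mul_of_nonneg_left ?_ (hM.pos f (hM.sub hf)).le
      have hfH := hM.sub hf
      have h4 : (f.card : ℝ) * ((f.card : ℝ) - 1) + ∑ e ∈ meets H f, ((e.card : ℝ) - 2) =
          ∑ u ∈ f, (((f.card : ℝ) - 1) + ∑ e ∈ atv H f u, ((e.card : ℝ) - 2)) := by
        rw [Finset.sum_add_distrib, sum_atv hlin hfH]
        simp
        ring
      rw [h4]
      refine Finset.sum_le_sum fun u hu => ?_
      have h5 := hD u
      rw [card_nbhd' hlin hfH hu] at h5
      have h6 : ((f.card + ∑ e ∈ atv H f u, (e.card - 1) : ℕ) : ℝ) ≤ D := by exact_mod_cast h5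
      rw [Nat.cast_add, cast_sum_atv hsz3] at h6
      rw [card_filter_mem hfH hu]
      push_cast
      linarith

/-- All edges have exactly three vertices. -/
theorem dual_three (D : ℕ) (H : Finset (Finset V)) (hlin : IsLinear H)
    (hsz : ∀ e ∈ H, e.card = 3) (hD : ∀ v, (nbhd H v).card ≤ D) : Dual H D := by
  refine dual_induction
    (fun H => IsLinear H ∧ (∀ e ∈ H, e.card = 3) ∧ ∀ v, (nbhd H v).card ≤ D) ?_ ?_ ?_ D ?_ H
    ⟨hlin, hsz, hD⟩
  · intro H H' hs h
    exact ⟨h.1.mono hs, fun e he => h.2.1 e (hs he),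
      fun v => (Finset.card_le_card (nbhd_mono hs v)).trans (h.2.2 v)⟩
  · intro H h; exact h.1
  · intro H h e he
    exact (h.2.1 e he).ge
  · rintro H ⟨hlin, hsz, hD⟩ _ w M hM
    refine (hM.main (γ := 1 / 2) (by norm_num) (by norm_num) ?_
      (fun f => 3 * (D : ℝ) - 3 - 2 * ((meets H f).card : ℝ)) ?_).trans ?_
    · intro e he
      rw [hsz e he]
      norm_num
    · intro f hf
      refine hM.local_of_layers (by norm_num) hf ?_
      intro A U hA hU h1 h2
      have := ci_three hlin (hM.sub hf) hA hU h1 h2 hsz D hD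
      have h3 : ((2 * A.card + 4 * (meets H f).card + 6 : ℕ) : ℝ) ≤ ((6 * D + U.card : ℕ) : ℝ) := by
        exact_mod_cast this
      push_cast at h3
      linarith
    · refine Finset.sum_le_sum fun f hf => ?_
      refine mul_le_mul_of_nonneg_left (le_of_eq ?_) (hM.pos f (hM.sub hf)).le
      have hfH := hM.sub hf
      have h4 : ∑ e ∈ meets H f, ((e.card : ℝ) - 2) = (meets H f).card := by
        rw [Finset.sum_congr rfl (fun e he => by rw [hsz e (mem_meets.1 he).1])]
        norm_num
      have h5 : ∑ u ∈ f, ((D : ℝ) - ((H.filter (fun g => u ∈ g)).card : ℝ)) =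
          ∑ u ∈ f, (((D : ℝ) - 1) - (atv H f u).card) := by
        refine Finset.sum_congr rfl fun u hu => ?_
        rw [card_filter_mem hfH hu]
        push_cast
        ring
      have h6 : ∑ u ∈ f, ((atv H f u).card : ℝ) = (meets H f).card := by
        have := card_eq_sum_filter hlin hfH (Finset.Subset.refl (meets H f))
        rw [this]
        push_cast
        rfl
      rw [h4, h5, Finset.sum_sub_distrib, h6]
      simp only [Finset.sum_const, hsz f hfH, nsmul_eq_mul]
      push_cast
      ring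

/-- From the dual statement to a fractional colouring. -/
theorem exists_colouring {H : Finset (Finset V)} {D : ℝ} (hD0 : 0 ≤ D) (h : Dual H D) :
    ∃ y : Finset (Finset V) → ℝ, (∀ M, 0 ≤ y M) ∧ (∀ M, y M ≠ 0 → M ∈ matchings H) ∧
      (∀ e ∈ H, 1 ≤ ∑ M ∈ H.powerset.filter (fun M => e ∈ M), y M) ∧
      ∑ M ∈ H.powerset, y M ≤ D := by
  classical
  rcases H.eq_empty_or_nonempty with rfl | hne
  · exact ⟨fun _ => 0, by simp, by simp, by simp, by simpa using hD0⟩
  obtain ⟨k, w, y, hopt⟩ := exists_optPair H hne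
  have hk : k ≤ D := by
    obtain ⟨M, hM, hMw⟩ := h w hopt.w0
    rw [hopt.wk] at hMw
    have h1 := hopt.pack M hM
    have := mul_le_mul_of_nonneg_left h1 hD0
    linarith
  refine ⟨fun M => if M ∈ matchings H then y M else 0, ?_, ?_, ?_, ?_⟩
  · intro M; dsimp only; split_ifs
    · exact hopt.y0 M
    · exact le_rfl
  · intro M hM
    by_contra hcon
    simp [hcon] at hM
  · intro e he
    rw [← Finset.sum_filter, Finset.filter_filter]
    refine (hopt.cover e he).trans (le_of_eq ?_)
    refine Finset.sum_congr ?_ fun _ _ => rfl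
    ext M
    simp only [mem_filter, mem_powerset, mem_matchings]
    tauto
  · rw [← Finset.sum_filter]
    have : H.powerset.filter (fun M => M ∈ matchings H) = matchings H := by
      ext M
      simp only [mem_filter, mem_powerset, mem_matchings]
      tauto
    rw [this, hopt.yk]
    exact hk

end Pool.Agent.Helper4.BF
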